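import Pool.Agent.Lib_helper78.RF.F.WIT
import Pool.Agent.Lib_helper78.RF.F.PRG
import Pool.Agent.Lib_helper78.RF.F.DEP

/-!
# The program that checks flags and witnesses
-/

set_option autoImplicit false

namespace Pool.Agent.TC

open Pool.Agent.CK Pool.Agent.RF

/-- before every bit a `1` -/
def dbl : List Bool → List Bool
  | [] => []
  | b :: l => true :: b :: dbl l

theorem dbl_append (l m : List Bool) : dbl (l ++ m) = dbl l ++ dbl m := by
  induction l with
  | nil => rfl
  | cons b l ih => simp [dbl, ih]

theorem dbl_len (l : List Bool) : (dbl l).length = 2 * l.length := by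
  induction l with
  | nil => rfl
  | cons b l ih =>
    simp only [dbl, List.length_cons, ih]
    omega

/-- the address of the witness `y` of the instance `z`; `ad z []` is the flag of `z` -/
def ad (z y : List Bool) : List Bool := dbl y.reverse ++ (false :: z)

theorem ad_len (z y : List Bool) : (ad z y).length = 2 * y.length + z.length + 1 := by
  unfold ad
  rw [List.length_append, dbl_len, List.length_reverse, List.length_cons]
  omega

theorem dbl_inj {l l' z z' : List Bool} (h : dbl l ++ (false :: z) = dbl l' ++ (false :: z')) :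
    l = l' ∧ z = z' := by
  induction l generalizing l' with
  | nil =>
    cases l' with
    | nil => exact ⟨rfl, (List.cons.inj h).2⟩
    | cons b l' => exact absurd (List.cons.inj h).1 (by simp)
  | cons a l ih =>
    cases l' with
    | nil => exact absurd (List.cons.inj h).1 (by simp)
    | cons b l' =>
      have h1 := (List.cons.inj h).2
      obtain ⟨h2, h3⟩ := List.cons.inj h1
      obtain ⟨h4, h5⟩ := ih h3
      exact ⟨by rw [h2, h4], h5⟩

theorem ad_inj {z z' y y' : List Bool} (h : ad z y = ad z' y') : z = z' ∧ y = y' := by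
  obtain ⟨h1, h2⟩ := dbl_inj h
  exact ⟨h2, List.reverse_injective h1⟩

/-- move one bit -/
def pBody : Cmd := Cmd.cond 1 Cmd.skip
  (Cmd.seq (Cmd.pop 1) (Cmd.seq (Cmd.push 0 false) (Cmd.push 0 true)))
  (Cmd.seq (Cmd.pop 1) (Cmd.seq (Cmd.push 0 true) (Cmd.push 0 true)))

/-- the case without witness -/
def pA : Cmd := Cmd.seq (Cmd.push 0 true) (Cmd.ask 0 Cmd.skip (Cmd.push 0 false))

/-- the case with a witness -/
def pB : Cmd := Cmd.seq (Cmd.loop 1 pBody)
  (Cmd.seq (Cmd.push 0 true) (Cmd.ask 0 (Cmd.push 0 false) Cmd.skip))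

/-- The program: on the inputs `z`, `y` it accepts if `y` is empty and the flag of `z` is not in
the oracle, or if `y` is not empty and the witness `y` of `z` is in the oracle. -/
def prg : Cmd := Cmd.seq (Cmd.push 0 false) (Cmd.cond 1 pA pB pB)

/-- two stacks -/
abbrev s2 (a b : List Bool) : ℕ → List Bool := prog1_st a b [] [] [] [] [] [] [] []

theorem pBody_run (O : Lang) (b : Bool) (a y : List Bool) :
    prog1_Run O pBody (s2 a (b :: y)) (s2 (true :: b :: a) y) 6 := by
  cases b with
  | false =>
    exact prog1_cond_false (l := y) rfl (prog1_seq (prog1_pop1 _ _ _ _ _ _ _ _ _ _ O)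
      (prog1_seq (prog1_push0 _ _ _ _ _ _ _ _ _ _ O false)
        (prog1_push0 _ _ _ _ _ _ _ _ _ _ O true)))
  | true =>
    exact prog1_cond_true (l := y) rfl (prog1_seq (prog1_pop1 _ _ _ _ _ _ _ _ _ _ O)
      (prog1_seq (prog1_push0 _ _ _ _ _ _ _ _ _ _ O true)
        (prog1_push0 _ _ _ _ _ _ _ _ _ _ O true)))

theorem pLoop_run (O : Lang) (y : List Bool) : ∀ a : List Bool,
    prog1_Run O (Cmd.loop 1 pBody) (s2 a y) (s2 (dbl y.reverse ++ a) []) (7 * y.length + 1) := by
  induction y with
  | nil =>
    intro a
    exact prog1_loop_nil rfl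
  | cons b y ih =>
    intro a
    have h1 := ih (true :: b :: a)
    have h2 : dbl (b :: y).reverse ++ a = dbl y.reverse ++ (true :: b :: a) := by
      rw [List.reverse_cons, dbl_append, List.append_assoc]
      rfl
    rw [h2]
    refine prog1_mono (prog1_loop_cons (s1 := s2 (true :: b :: a) y) ?_ (pBody_run O b a y) h1) ?_
    · simp [prog1_st]
    · rw [List.length_cons]
      omega

theorem prg_spec (O : Lang) (z y : List Bool) : ∃ s',
    prog1_Run O prg (init z y) s' (7 * y.length + 9) ∧
      ((s' 0).head? = some true ↔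
        (y = [] ∧ O (true :: ad z []) = false) ∨ (y ≠ [] ∧ O (true :: ad z y) = true)) := by
  rw [prog1_init]
  cases y with
  | nil =>
    have hq : (s2 (true :: false :: z) []) 0 = true :: ad z [] := rfl
    cases hO : O (true :: ad z []) with
    | false =>
      refine ⟨s2 (true :: false :: z) [], ?_, ?_⟩
      · refine prog1_mono (prog1_seq (prog1_push0 _ _ _ _ _ _ _ _ _ _ O false)
          (prog1_cond_nil rfl (prog1_seq (prog1_push0 _ _ _ _ _ _ _ _ _ _ O true)
            (prog1_ask_false (show _ = _ from hO) (prog1_skip O _))))) ?_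
        simp
      · simp [prog1_st]
    | true =>
      refine ⟨s2 (false :: true :: false :: z) [], ?_, ?_⟩
      · refine prog1_mono (prog1_seq (prog1_push0 _ _ _ _ _ _ _ _ _ _ O false)
          (prog1_cond_nil rfl (prog1_seq (prog1_push0 _ _ _ _ _ _ _ _ _ _ O true)
            (prog1_ask_true (show _ = _ from hO) (prog1_push0 _ _ _ _ _ _ _ _ _ _ O false))))) ?_
        simp
      · simp [prog1_st]
  | cons b y =>
    have hL := pLoop_run O (b :: y) (false :: z)
    have hq : (s2 (true :: (dbl (b :: y).reverse ++ (false :: z))) []) 0 =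
      true :: ad z (b :: y) := rfl
    cases hO : O (true :: ad z (b :: y)) with
    | false =>
      refine ⟨s2 (false :: true :: (dbl (b :: y).reverse ++ (false :: z))) [], ?_, ?_⟩
      · have h1 : prog1_Run O pB (s2 (false :: z) (b :: y))
            (s2 (false :: true :: (dbl (b :: y).reverse ++ (false :: z))) [])
            (7 * (b :: y).length + 6) :=
          prog1_mono (prog1_seq hL (prog1_seq (prog1_push0 _ _ _ _ _ _ _ _ _ _ O true)
            (prog1_ask_false (show _ = _ from hO) (prog1_push0 _ _ _ _ _ _ _ _ _ _ O false))))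
            (by omega)
        refine prog1_mono (prog1_seq (T2 := 7 * (b :: y).length + 7)
          (prog1_push0 _ _ _ _ _ _ _ _ _ _ O false) ?_) (by omega)
        cases b with
        | false => exact prog1_cond_false (l := y) rfl h1
        | true => exact prog1_cond_true (l := y) rfl h1
      · simp [prog1_st]
    | true =>
      refine ⟨s2 (true :: (dbl (b :: y).reverse ++ (false :: z))) [], ?_, ?_⟩
      · have h1 : prog1_Run O pB (s2 (false :: z) (b :: y))
            (s2 (true :: (dbl (b :: y).reverse ++ (false :: z))) [])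
            (7 * (b :: y).length + 6) :=
          prog1_mono (prog1_seq hL (prog1_seq (prog1_push0 _ _ _ _ _ _ _ _ _ _ O true)
            (prog1_ask_true (show _ = _ from hO) (prog1_skip O _))))
            (by omega)
        refine prog1_mono (prog1_seq (T2 := 7 * (b :: y).length + 7)
          (prog1_push0 _ _ _ _ _ _ _ _ _ _ O false) ?_) (by omega)
        cases b with
        | false => exact prog1_cond_false (l := y) rfl h1
        | true => exact prog1_cond_true (l := y) rfl h1
      · simp [prog1_st]

theorem prg_acc {O : Lang} {z y : List Bool} {t : ℕ} (h : Accepts O prg z y t) :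
    (y = [] ∧ O (true :: ad z []) = false) ∨ (y ≠ [] ∧ O (true :: ad z y) = true) := by
  obtain ⟨s', h1, h2⟩ := prg_spec O z y
  have h3 := accepts_mono (Nat.le_max_left t (7 * y.length + 9)) h
  have h4 := prog1_final h1 (Nat.le_max_right t (7 * y.length + 9))
  have h5 := h3.2
  unfold run at h5
  rw [h4] at h5
  exact h2.1 h5

theorem acc_prg {O : Lang} {z y : List Bool} {t : ℕ} (ht : 7 * y.length + 9 ≤ t)
    (h : (y = [] ∧ O (true :: ad z []) = false) ∨ (y ≠ [] ∧ O (true :: ad z y) = true)) :
    Accepts O prg z y t := by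
  obtain ⟨s', h1, h2⟩ := prg_spec O z y
  have h4 := prog1_final h1 ht
  unfold Accepts run
  rw [h4]
  exact ⟨rfl, h2.2 h⟩

/-- the code of the program -/
def e1 : ℕ := val (cEnc prg)

/-- The sentence: the flag of `z` is not in the oracle, or `z` has a witness in the oracle. -/
def witF (z : List Bool) : Fm := mu (num e1) (num (val z)) (num (zz z.length))

theorem mu_of {O : Lang} {z y : List Bool} (hy : y.length ≤ z.length)
    (h : (y = [] ∧ O (true :: ad z []) = false) ∨ (y ≠ [] ∧ O (true :: ad z y) = true)) :
    MuT O e1 (val z) (zz z.length) := by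
  have h1 := prog1_time z.length
  refine ⟨val y, ?_, prg, z, y, rfl, rfl, rfl, ?_⟩
  · have h3 := (size_val y).2
    have h4 : val y < 2 ^ ((z.length + 2) ^ 5) := by
      rw [← Nat.size_le]; omega
    unfold zz
    omega
  · rw [WIT_size_zz]
    exact acc_prg (by omega) h

theorem of_mu {O : Lang} {z : List Bool} (h : MuT O e1 (val z) (zz z.length)) :
    O (true :: ad z []) = false ∨ ∃ y, y ≠ [] ∧ O (true :: ad z y) = true := by
  obtain ⟨w, -, c, a, b, h1, h2, -, h4⟩ := h
  have hc : c = prg := cEnc_inj (val_inj h1)
  have ha : a = z := val_inj h2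
  subst hc; subst ha
  rcases prg_acc h4 with h5 | h5
  · exact Or.inl h5.2
  · exact Or.inr ⟨b, h5⟩

theorem witF_true {O : Lang} {z : List Bool} (h : MuT O e1 (val z) (zz z.length)) :
    (witF z).True O := fun v => (holds_mu O v _ _ _).2 h

theorem witF_len : ∃ c : ℕ, ∀ u : List Bool, Nat.size (val (pEnc [witF u])) ≤ NN c u.length ∧
    Nat.size e1 ≤ NN c u.length ∧ Nat.size (val u) ≤ NN c u.length ∧
    Nat.size (zz u.length) ≤ NN c u.length := by
  refine ⟨24 * Nat.size e1 + 300, fun u => ?_⟩
  have h1 : (witF u).enc.length = 2 * (num (zz u.length)).enc.length + (num e1).enc.length +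
      (num (val u)).enc.length + 62 := WIT_mu_len _ _ _
  have h2 := num_len (zz u.length)
  have h3 := num_len e1
  have h4 := num_len (val u)
  have h5 := (size_val u).2
  have h6 := WIT_size_zz u.length
  have h7 : (pEnc [witF u]).length = (witF u).enc.length := by simp [pEnc]
  have h8 := (size_val (pEnc [witF u])).2
  have h9 := prog1_time u.length
  unfold NN
  rw [h6] at h2
  generalize (u.length + 2) ^ 5 = P at *
  have h10 : Nat.size e1 ≤ Nat.size e1 * P := Nat.le_mul_of_pos_right _ (by omega)
  have h11 : (24 * Nat.size e1 + 300) * P = 24 * (Nat.size e1 * P) + 300 * P := by ring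
  rw [h11]
  refine ⟨?_, ?_, ?_, ?_⟩ <;> omega

/-- a theory with a false axiom does not satisfy reflection -/
theorem not_rfn {O : Lang} {T : Th} {N : ℕ} {z : List Bool} (h : Ax O T (witF z))
    (hM : ¬ MuT O e1 (val z) (zz z.length)) (h1 : Nat.size (val (pEnc [witF z])) ≤ N)
    (h2 : Nat.size e1 ≤ N) (h3 : Nat.size (val z) ≤ N) (h4 : Nat.size (zz z.length) ≤ N) :
    ¬ RfnT O T N := by
  intro hR
  refine hM (hR e1 (val z) (zz z.length) [] h2 h3 h4 h1 ?_)
  intro i φ hi
  right; left
  rcases i with _ | i
  · have hφ : φ = witF z := by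
      simp only [List.nil_append, List.getElem?_cons_zero, Option.some.injEq] at hi
      exact hi.symm
    subst hφ
    refine accepts_mono (le_trans ?_ (clkS_ge _ _)) h
    refine Nat.pow_le_pow_left ?_ _
    have h5 := (size_val (pEnc ([] ++ [mu (num e1) (num (val z)) (num (zz z.length))]))).1
    have h6 : (pEnc ([] ++ [mu (num e1) (num (val z)) (num (zz z.length))])).length =
        (witF z).enc.length := by
      unfold witF
      simp [pEnc]
    omega
  · simp at hi

end Pool.Agent.TC
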