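import Pool.Agent.Lib_helper78.TC.Pot
import Pool.Agent.Lib_helper78.TC.Prg

/-!
# One stage
-/

set_option autoImplicit false

namespace Pool.Agent.TC

open Pool.Agent.CK Pool.Agent.RF Pool.Agent.CKP Pool.Agent.RO Pool.Agent.ADV Pool.Agent.FS

/-- the language of a finite set -/
def LF (F : Finset (List Bool)) : Lang := fun x => decide (x ∈ F)

/-- the instance -/
def ins (p u : List Bool) : List Bool := true :: (p ++ u)

/-- the flags and the witnesses for `D` -/
def addD (p : List Bool) (D : Finset (List Bool × List Bool)) : Finset (List Bool) :=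
  D.image (fun d => ad (ins p d.1) []) ∪ D.image (fun d => ad (ins p d.1) d.2)

theorem ins_inj {p u u' : List Bool} (h : ins p u = ins p u') : u = u' :=
  List.append_cancel_left (List.cons.inj h).2

theorem addD_insert (F0 : Finset (List Bool)) (p u y : List Bool)
    (D : Finset (List Bool × List Bool)) :
    insert (ad (ins p u) y) (insert (ad (ins p u) []) (F0 ∪ addD p D)) =
      F0 ∪ addD p (insert (u, y) D) := by
  ext x
  unfold addD
  rw [Finset.image_insert, Finset.image_insert]
  simp only [Finset.mem_insert, Finset.mem_union]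
  tauto

theorem exists_fresh {β : Type} [DecidableEq β] (n : ℕ) (f : List Bool → β)
    (hf : Function.Injective f) (Q : Finset β) (h : Q.card < 2 ^ n) :
    ∃ u : List Bool, u.length = n ∧ f u ∉ Q := by
  by_contra hcon
  push Not at hcon
  have h1 : (Finset.univ : Finset (Fin n → Bool)).image (fun v => f (List.ofFn v)) ⊆ Q := by
    intro z hz
    obtain ⟨v, -, rfl⟩ := Finset.mem_image.1 hz
    exact hcon _ List.length_ofFn
  have h2 := Finset.card_le_card h1
  rw [Finset.card_image_of_injective _ (fun a b hab => List.ofFn_injective (hf hab)),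
    Finset.card_univ, Fintype.card_fun, Fintype.card_bool, Fintype.card_fin] at h2
  omega

section

variable {G : Fam → Prop} {g : ℕ → ℕ}

/-- certificates for all false sentences up to level `l` -/
theorem exists_certs (hG : ∀ e, G e → e.Good) (hR : ∀ e, G e → Ref e) (O : Lang) (a l : ℕ) :
    ∃ Q : Finset (List Bool), Q.card ≤ a * (2 ^ 2 ^ l * 2 ^ 2 ^ l) ∧
      ∀ e, G e → cod e < a → ∀ n, e.dep n ≤ 2 ^ l → ¬ (e.at n).True O →
        ∀ O'' : Lang, (∀ x ∈ Q, O'' x = O x) → ¬ (e.at n).True O'' := by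
  classical
  have h0 : ∀ d : ℕ × ℕ, ∃ Q : Finset (List Bool), Q.card ≤ 2 ^ 2 ^ l ∧
      ∀ e, G e → cod e = d.1 → e.dep d.2 ≤ 2 ^ l → ¬ (e.at d.2).True O →
        ∀ O'' : Lang, (∀ x ∈ Q, O'' x = O x) → ¬ (e.at d.2).True O'' := by
    rintro ⟨j, m⟩
    by_cases h : ∃ e, G e ∧ cod e = j ∧ e.dep m ≤ 2 ^ l ∧ ¬ (e.at m).True O
    · obtain ⟨e, h1, h2, h3, h4⟩ := h
      obtain ⟨Q, h5, h6⟩ := hR e h1 m O h4
      refine ⟨Q, h5.trans (Nat.pow_le_pow_right (by norm_num) h3), ?_⟩
      intro e' h7 h8 _ _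
      have := cod_inj (h2.trans h8.symm)
      subst this
      exact h6
    · push Not at h
      exact ⟨∅, Nat.zero_le _, fun e h1 h2 h3 h4 => absurd (h e h1 h2 h3) h4⟩
  choose Qf hQ1 hQ2 using h0
  refine ⟨(Finset.range a ×ˢ Finset.range (2 ^ 2 ^ l)).biUnion Qf, ?_, ?_⟩
  · refine (Finset.card_biUnion_le_card_mul _ _ _ (fun d _ => hQ1 d)).trans ?_
    rw [Finset.card_product, Finset.card_range, Finset.card_range, mul_assoc]
  · intro e he hc n hn hf O'' hO''
    refine hQ2 (cod e, n) e he rfl hn hf O'' (fun x hx => hO'' x ?_)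
    rw [Finset.mem_biUnion]
    refine ⟨(cod e, n), ?_, hx⟩
    rw [Finset.mem_product, Finset.mem_range, Finset.mem_range]
    refine ⟨hc, ?_⟩
    have h1 : Nat.size n ≤ 2 ^ l := by
      refine le_trans ?_ hn
      unfold Fam.dep
      have : Nat.size n ≤ (e.2.1 + 1) * (Nat.size n + 1) := by nlinarith
      exact this
    exact (Nat.lt_size_self n).trans_le (Nat.pow_le_pow_right (by norm_num) h1)

/-- **One stage.** -/
theorem stage (hG : ∀ e, G e → e.Good) (hR : ∀ e, G e → Ref e) (R : Lang) (p : List Bool)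
    {n a k q : ℕ} (F0 : Finset (List Bool)) (hn : 2 ≤ n) (ha : 0 < a)
    (hact : ∀ u, a ≤ u → ix n + 1 + k < g u) (P : Lang → Prop)
    (hP : ∀ O, P O → ∃ Q : Finset (List Bool), Q.card ≤ q ∧
      (∀ x ∈ Q, x.length ≤ 2 ^ 2 ^ (ix n + 1 + k + 1)) ∧
      ∀ O' : Lang, (∀ x ∈ Q, O' x = O x) → P O')
    (hsz : q + a * (2 ^ 2 ^ (ix n + 1 + k) * 2 ^ 2 ^ (ix n + 1 + k)) + 2 ^ (a * (k + 1)) <
      2 ^ n) :
    ∃ D : Finset (List Bool × List Bool), D.card ≤ 2 ^ (a * (k + 1)) ∧
      (∀ d ∈ D, d.1.length = n ∧ d.2.length = n) ∧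
      (¬ P (OT G g (LF (F0 ∪ addD p D)) R) ∨ ∃ u : List Bool, u.length = n ∧
        (∀ d ∈ D, d.1 ≠ u) ∧
        P (OT G g (LF (insert (ad (ins p u) []) (F0 ∪ addD p D))) R)) := by
  classical
  by_contra hcon
  push Not at hcon
  have hlev := lev_le hn
  -- the comparison of two worlds which differ in one long string
  have cmp : ∀ (F : Finset (List Bool)) (w : List Bool) (Q : Finset (List Bool)),
      n ≤ w.length → true :: w ∉ Q →
      (∀ e, G e → cod e < a → ∀ m, e.dep m ≤ 2 ^ (ix n + 1 + k) →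
        ¬ (e.at m).True (OT G g (LF F) R) →
        ∀ O'' : Lang, (∀ x ∈ Q, O'' x = OT G g (LF F) R x) → ¬ (e.at m).True O'') →
      pv (dig G g a (ix n + 1) (OT G g (LF F) R)) (a * (k + 1)) ≤
        pv (dig G g a (ix n + 1) (OT G g (LF (insert w F)) R)) (a * (k + 1)) ∧
      (pv (dig G g a (ix n + 1) (OT G g (LF F) R)) (a * (k + 1)) =
        pv (dig G g a (ix n + 1) (OT G g (LF (insert w F)) R)) (a * (k + 1)) →
        ∀ x : List Bool, x.length ≤ 2 ^ 2 ^ (ix n + 1 + k + 1) → x ≠ true :: w →
          OT G g (LF F) R x = OT G g (LF (insert w F)) R x) := by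
    intro F w Q hw hwQ hcert
    have hY : ∀ x : List Bool, (true :: x) ∉ ({true :: w} : Set (List Bool)) →
        LF F x = LF (insert w F) x := by
      intro x hx
      rw [Set.mem_singleton_iff] at hx
      unfold LF
      rw [Bool.eq_iff_iff, decide_eq_true_eq, decide_eq_true_eq, Finset.mem_insert]
      constructor
      · exact Or.inr
      · rintro (h | h)
        · exact absurd (by rw [h]) hx
        · exact h
    have hbase : ∀ l' < ix n + 1, ∀ u, Dead G g (OT G g (LF F) R) u l' ↔
        Dead G g (OT G g (LF (insert w F)) R) u l' := by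
      intro l' hl' u
      refine base_agree hG (ix n) (fun x hx => hY x ?_) l' (by omega) u
      rw [Set.mem_singleton_iff]
      intro h
      rw [(List.cons.inj h).2] at hx
      omega
    obtain ⟨h1, h2⟩ := pot_step (Y := LF F) (Y' := LF (insert w F)) (R := R) (d := k)
      (Δ := {true :: w}) hG ha hact hbase (fun x _ hx => hY x hx) (Q := Q)
      (fun x hx hx' => hwQ (by rw [Set.mem_singleton_iff] at hx'; rwa [← hx'])) hcert
    refine ⟨h1, fun heq x hx hxw => ?_⟩
    exact agree_low hG (h2 heq) (fun x _ hx => hY x hx) x hx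
      (by rw [Set.mem_singleton_iff]; exact hxw)
  have key : ∀ i : ℕ, ∃ D : Finset (List Bool × List Bool), D.card ≤ i ∧
      (∀ d ∈ D, d.1.length = n ∧ d.2.length = n) ∧
      i ≤ pv (dig G g a (ix n + 1) (OT G g (LF (F0 ∪ addD p D)) R)) (a * (k + 1)) := by
    intro i
    induction i with
    | zero => exact ⟨∅, le_rfl, fun d hd => absurd hd (Finset.notMem_empty d), Nat.zero_le _⟩
    | succ i ih =>
      obtain ⟨D, hD1, hD2, hD3⟩ := ih
      have hi := pv_lt (dig G g a (ix n + 1) (OT G g (LF (F0 ∪ addD p D)) R)) (a * (k + 1))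
      obtain ⟨hc1, hc2⟩ := hcon D (by omega) hD2
      set F := F0 ∪ addD p D with hF
      obtain ⟨QC, hQC1, hQC2⟩ := exists_certs (G := G) hG hR (OT G g (LF F) R) a (ix n + 1 + k)
      obtain ⟨QP, hQP1, hQP2, hQP3⟩ := hP _ hc1
      -- a new instance
      obtain ⟨u, hu, huQ⟩ := exists_fresh n (fun u => true :: ad (ins p u) [])
        (fun u u' h => ins_inj (ad_inj (List.cons.inj h).2).1)
        (QP ∪ QC ∪ D.image (fun d => true :: ad (ins p d.1) [])) (by
          have h1 := Finset.card_union_le (QP ∪ QC) (D.image (fun d => true :: ad (ins p d.1) []))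
          have h2 := Finset.card_union_le QP QC
          have h3 := Finset.card_image_le (s := D) (f := fun d => true :: ad (ins p d.1) [])
          omega)
      rw [Finset.mem_union, Finset.mem_union, not_or, not_or] at huQ
      obtain ⟨⟨hu1, hu2⟩, hu3⟩ := huQ
      have hu4 : ∀ d ∈ D, d.1 ≠ u := by
        rintro d hd rfl
        exact hu3 (Finset.mem_image.2 ⟨d, hd, rfl⟩)
      have hfl : n ≤ (ad (ins p u) []).length := by
        rw [ad_len]
        unfold ins
        rw [List.length_cons, List.length_append]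
        omega
      obtain ⟨hX1, hX2⟩ := cmp F (ad (ins p u) []) QC hfl hu2 hQC2
      have hXne : pv (dig G g a (ix n + 1) (OT G g (LF F) R)) (a * (k + 1)) ≠
          pv (dig G g a (ix n + 1) (OT G g (LF (insert (ad (ins p u) []) F)) R))
            (a * (k + 1)) := by
        intro heq
        refine hc2 u hu hu4 (hQP3 _ (fun x hx => ?_))
        refine (hX2 heq x (hQP2 x hx) ?_).symm
        rintro rfl
        exact hu1 hx
      -- a witness
      obtain ⟨QX, hQX1, hQX2⟩ := exists_certs (G := G) hG hR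
        (OT G g (LF (insert (ad (ins p u) []) F)) R) a (ix n + 1 + k)
      obtain ⟨y, hy, hyQ⟩ := exists_fresh n (fun y => true :: ad (ins p u) y)
        (fun y y' h => (ad_inj (List.cons.inj h).2).2) QX (by omega)
      have hwl : n ≤ (ad (ins p u) y).length := by
        rw [ad_len]
        omega
      obtain ⟨hA1, -⟩ := cmp (insert (ad (ins p u) []) F) (ad (ins p u) y) QX hwl hyQ hQX2
      have hset : insert (ad (ins p u) y) (insert (ad (ins p u) []) F) =
          F0 ∪ addD p (insert (u, y) D) := addD_insert F0 p u y D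
      rw [hset] at hA1
      refine ⟨insert (u, y) D, (Finset.card_insert_le _ _).trans (by omega), ?_, by omega⟩
      intro d hd
      rcases Finset.mem_insert.1 hd with h | h
      · rw [h]
        exact ⟨hu, hy⟩
      · exact hD2 d h
  obtain ⟨D, -, -, hD⟩ := key (2 ^ (a * (k + 1)))
  have hi := pv_lt (dig G g a (ix n + 1) (OT G g (LF (F0 ∪ addD p D)) R)) (a * (k + 1))
  omega

end

end Pool.Agent.TC
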