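import Pool.Agent.Lib_helper78.TC.Prg
import Pool.Agent.Lib_helper78.FS.Game
import Pool.Agent.Lib_helper78.RO.F.RMU
import Pool.Agent.Lib_helper78.RO.F.RDP
import Pool.Agent.Lib_helper78.RO.F.PRP
import Pool.Agent.Lib_helper78.RO.F.PRS

/-!
# The theory with the axioms `witF (1 p u)`, `p` the prefix of the theory
-/

set_option autoImplicit false

namespace Pool.Agent.TC

open Pool.Agent.CK Pool.Agent.RF Pool.Agent.CKP Pool.Agent.RO Pool.Agent.FS

variable {O : Lang}

theorem val_zeros (k : ℕ) : val (List.replicate k false) = 2 ^ k - 1 := by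
  have h := fmu_any_false (List.replicate k false) (by simp)
  rw [List.length_replicate] at h
  omega

/-- the tokens of the sentence `witF z` -/
def wtT (z : List Bool) : List Tk :=
  muT (numT (cEnc prg)) (numT z) (numT (List.replicate ((z.length + 2) ^ 5) false))

theorem wtT_eq (z : List Bool) : wtT z = fmT (witF z) := by
  unfold wtT witF
  rw [numT_eq, numT_eq, numT_eq, muT_eq, val_zeros]
  rfl

theorem PTime_wtT {γ : Type} [ToD γ] {z : γ → List Bool} (hz : PTime O z) :
    PTime O (fun x => wtT (z x)) := by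
  unfold wtT
  refine PTime_muT (PTime.const _) (PTime_numT hz) (PTime_numT ?_)
  have h1 : PTime O (fun x => List.replicate (((z x).length + 2) ^ 5) ()) :=
    UPoly.comp (g := fun n => (n + 2) ^ 5) (UPoly.tb 5) hz
  have h2 : PTime O (fun x => (List.replicate (((z x).length + 2) ^ 5) ()).map
      (fun _ => false)) := PTime.map (f := fun _ _ => false) h1 (PTime.const _)
  exact h2.of_eq fun x => by rw [List.map_replicate]

/-- the instance in a sentence -/
def decz (x : List Bool) : List Bool :=
  (rdN (udrop (tk 14 0 :: tk 12 0 :: numT (cEnc prg))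
    (rdN (udrop (List.replicate 7 ()) (parse x))).1)).2

theorem decz_wit (z : List Bool) : decz (witF z).enc = z := by
  unfold decz
  rw [parse_fm, ← wtT_eq]
  have h1 : udrop (List.replicate 7 ()) (wtT z) =
      numT (List.replicate ((z.length + 2) ^ 5) false) ++ (tk 14 0 :: tk 12 0 ::
        (numT (cEnc prg) ++ (numT z ++ ([tk 0 4] ++
          numT (List.replicate ((z.length + 2) ^ 5) false))))) := by
    rw [udrop_eq]
    rfl
  rw [h1, rdN_num]
  simp only
  have h2 : udrop (tk 14 0 :: tk 12 0 :: numT (cEnc prg)) (tk 14 0 :: tk 12 0 ::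
        (numT (cEnc prg) ++ (numT z ++ ([tk 0 4] ++
          numT (List.replicate ((z.length + 2) ^ 5) false))))) =
      numT z ++ ([tk 0 4] ++ numT (List.replicate ((z.length + 2) ^ 5) false)) := by
    rw [udrop_eq, List.length_cons, List.length_cons, List.drop_succ_cons, List.drop_succ_cons,
      List.drop_left]
  rw [h2, rdN_num]

theorem PTime_decz {γ : Type} [ToD γ] {x : γ → List Bool} (hx : PTime O x) :
    PTime O (fun a => decz (x a)) :=
  (PTime_rdN (PTime.udrop (PTime.const _)
    (PTime_rdN (PTime.udrop (PTime.const _) (PTime_parse hx))).fst)).snd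

/-- the decision procedure of the theory -/
def decW (O : Lang) (b : Th) (q : List Bool) (x : (List Bool × List Unit) × List Bool) : Bool :=
  accU O (cmdD b.1) x.2 [] (List.replicate ((x.2.length + 2) ^ b.2) ()) ||
    eqT x.2 (encT (wtT (true :: (pfx x.1.1 x.1.2 q ++
      udrop (true :: pfx x.1.1 x.1.2 q) (decz x.2)))))

theorem PTime_decW (b : Th) (q : List Bool) : PTime O (decW O b q) := by
  have f0 : PTime O (fun x : (List Bool × List Unit) × List Bool => x) := PTime.id
  have hN : PTime O (fun x : (List Bool × List Unit) × List Bool =>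
      List.replicate ((x.2.length + 2) ^ b.2) ()) :=
    UPoly.comp (g := fun n => (n + 2) ^ b.2) (UPoly.tb b.2) f0.snd
  have h1 : PTime O (fun x : (List Bool × List Unit) × List Bool =>
      accU O (cmdD b.1) x.2 [] (List.replicate ((x.2.length + 2) ^ b.2) ())) :=
    PTime.accU (PTime.const _) f0.snd (PTime.const []) hN
  have g3 : PTime O (fun p : (List Bool × List Unit) × List Bool => pfx p.1.1 p.1.2 q) := by
    unfold pfx tagU
    exact PTime.append f0.fst.fst (PTime.append (PTime.append
      (PTime.map (f := fun _ _ => true) f0.fst.snd (PTime.const _)) (PTime.const _))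
      (PTime.const _))
  have g4 : PTime O (fun p : (List Bool × List Unit) × List Bool =>
      udrop (true :: pfx p.1.1 p.1.2 q) (decz p.2)) :=
    PTime.udrop (PTime.cons (PTime.const true) g3) (PTime_decz f0.snd)
  exact (h1.or (PTime_eqT f0.snd (PTime_encT (PTime_wtT
    (PTime.cons (PTime.const true) (PTime.append g3 g4)))))).of_eq fun x => rfl

/-- the theory -/
theorem exists_TW {B : Fm → Prop} (hB : Base O B) (i : ℕ) : ∃ T : Th,
    (∀ x, Halts O T.1 x [] ((x.length + 2) ^ T.2)) ∧
    ∀ σ, Ax O T σ ↔ B σ ∨ ∃ u, σ = witF (true :: (pfxT T i ++ u)) := by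
  obtain ⟨b, hbh, hb⟩ := hB.dec
  obtain ⟨T, hT⟩ := quine (PTime_decW (O := O) b (tag i))
  refine ⟨T, fun x => (hT x).1, fun σ => ?_⟩
  unfold Ax
  rw [(hT σ.enc).2]
  unfold decW
  rw [Bool.or_eq_true, accU_iff, List.length_replicate]
  refine or_congr (hb σ) ?_
  have e1 : pfx (cEnc T.1) (List.replicate T.2 ()) (tag i) = pfxT T i := pfx_eq T i
  simp only [e1]
  rw [eqT_bits, wtT_eq, encT_fm]
  constructor
  · intro h
    exact ⟨_, (enc_inj (a := []) (b := []) (by rw [List.append_nil, List.append_nil]; exact h)).1⟩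
  · rintro ⟨u, rfl⟩
    rw [decz_wit, udrop_eq, List.length_cons, List.drop_succ_cons, List.drop_left]

end Pool.Agent.TC
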