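import Pool.Agent.Lib_helper78.TC.Seq
import Pool.Agent.Lib_helper78.TC.Dec

/-!
# The construction
-/

set_option autoImplicit false

namespace Pool.Agent.TC

open Pool.Agent.CK Pool.Agent.RF Pool.Agent.CKP Pool.Agent.RO Pool.Agent.ADV Pool.Agent.FS Filter

/-- local families with short certificates of falsity -/
def GF (e : Fam) : Prop := e.Good ∧ Ref e

/-- the parameters of the construction -/
structure Par where
  /-- the given oracle -/
  R : Lang
  /-- the numbers of the theories -/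
  num : Th → ℕ
  /-- the enumeration of the pairs -/
  cl : ℕ → Th × Th
  /-- the constant -/
  c : ℕ
  /-- the number of levels of a stage -/
  k : ℕ → ℕ
  /-- the lengths -/
  nn : ℕ → ℕ

namespace Par

variable (P : Par)

/-- the theory `S` of the stage -/
def S (s : ℕ) : Th := (P.cl (Nat.unpair s).1).1

/-- the theory `T` of the stage -/
def T (s : ℕ) : Th := (P.cl (Nat.unpair s).1).2

/-- the prefix of the stage -/
def pf (s : ℕ) : List Bool := pfxT (P.T s) (P.num (P.S s))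

/-- the goal of the stage -/
def Sh (s : ℕ) (O : Lang) : Prop :=
  Short (P.S s) (P.T s) (Nat.unpair s).2 (NN P.c (P.nn s + ((P.pf s).length + 1))) O

/-- the levels of activation -/
def g (u : ℕ) : ℕ := ix (P.nn u) + 2 * u + 2

/-- the oracle with the set `Y` -/
noncomputable def O (Y : Lang) : Lang := OT GF P.g Y P.R

/-- the number of strings of the first stages -/
def tot (k : ℕ → ℕ) (s : ℕ) : ℕ :=
  ∑ i ∈ Finset.range s, (2 * 2 ^ ((i + 1) * (k i + 1)) + 1)

/-- the conditions -/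
structure Ok (α : ℕ → ℕ) : Prop where
  mono : StrictMono P.nn
  two : ∀ s, 2 ≤ P.nn s
  len : ∀ s, LLn (P.S s) (Nat.unpair s).2 (NN P.c (P.nn s + ((P.pf s).length + 1))) ≤
    2 ^ 2 ^ (ix (P.nn s) + 1 + P.k s + 1)
  size : ∀ s, LLn (P.S s) (Nat.unpair s).2 (NN P.c (P.nn s + ((P.pf s).length + 1))) *
      LLn (P.S s) (Nat.unpair s).2 (NN P.c (P.nn s + ((P.pf s).length + 1))) +
      (s + 1) * (2 ^ 2 ^ (ix (P.nn s) + 1 + P.k s) * 2 ^ 2 ^ (ix (P.nn s) + 1 + P.k s)) +
      2 ^ ((s + 1) * (P.k s + 1)) < 2 ^ P.nn s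
  next : ∀ s, 2 ^ 2 ^ (ix (P.nn s) + 1 + P.k s + 1) < P.nn (s + 1)
  few : ∀ s n, P.nn s ≤ n → 2 * (s + 1) + tot P.k (s + 1) ≤ α n

/-- the outcome of a stage -/
def Out (s : ℕ) (F F' : Finset (List Bool)) (D : Finset (List Bool × List Bool)) : Prop :=
  D.card ≤ 2 ^ ((s + 1) * (P.k s + 1)) ∧
  (∀ d ∈ D, d.1.length = P.nn s ∧ d.2.length = P.nn s) ∧
  ((F' = F ∪ addD (P.pf s) D ∧ ¬ P.Sh s (P.O (LF F'))) ∨
    ∃ u : List Bool, u.length = P.nn s ∧ (∀ d ∈ D, d.1 ≠ u) ∧
      F' = insert (ad (ins (P.pf s) u) []) (F ∪ addD (P.pf s) D) ∧ P.Sh s (P.O (LF F')))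

end Par

theorem exists_par (R : Lang) (num : Th → ℕ) (cl : ℕ → Th × Th) (c : ℕ) {α : ℕ → ℕ}
    (hα : Tendsto α atTop atTop) : ∃ P : Par, P.Ok α ∧ P.R = R ∧ P.num = num ∧ P.cl = cl ∧
      P.c = c := by
  have h0 := fun s : ℕ => exists_k (cl (Nat.unpair s).1).1 (Nat.unpair s).2 c
    ((pfxT (cl (Nat.unpair s).1).2 (num (cl (Nat.unpair s).1).1)).length + 1) (s + 1)
  choose k hk using h0
  obtain ⟨nn, h1, h2⟩ := SEQ_gen (P := fun s m => (2 ≤ m ∧
    LLn (cl (Nat.unpair s).1).1 (Nat.unpair s).2 (NN c (m +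
      ((pfxT (cl (Nat.unpair s).1).2 (num (cl (Nat.unpair s).1).1)).length + 1))) ≤
      2 ^ 2 ^ (ix m + 1 + k s + 1) ∧
    LLn (cl (Nat.unpair s).1).1 (Nat.unpair s).2 (NN c (m +
      ((pfxT (cl (Nat.unpair s).1).2 (num (cl (Nat.unpair s).1).1)).length + 1))) *
    LLn (cl (Nat.unpair s).1).1 (Nat.unpair s).2 (NN c (m +
      ((pfxT (cl (Nat.unpair s).1).2 (num (cl (Nat.unpair s).1).1)).length + 1))) +
      (s + 1) * (2 ^ 2 ^ (ix m + 1 + k s) * 2 ^ 2 ^ (ix m + 1 + k s)) +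
      2 ^ ((s + 1) * (k s + 1)) < 2 ^ m) ∧
      ∀ n, m ≤ n → 2 * (s + 1) + Par.tot k (s + 1) ≤ α n)
    (fun s => (hk s).and (by
      obtain ⟨N, hN⟩ := (tendsto_atTop.1 hα (2 * (s + 1) + Par.tot k (s + 1))).exists_forall_of_atTop
      filter_upwards [eventually_ge_atTop N] with m hm n hn
      exact hN n (hm.trans hn)))
    (fun s m => 2 ^ 2 ^ (ix m + 1 + k s + 1))
  exact ⟨⟨R, num, cl, c, k, nn⟩, ⟨h1, fun s => (h2 s).1.1.1, fun s => (h2 s).1.1.2.1,
    fun s => (h2 s).1.1.2.2, fun s => (h2 s).2, fun s => (h2 s).1.2⟩, rfl, rfl, rfl, rfl⟩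

section

variable {P : Par} {α : ℕ → ℕ} (hP : P.Ok α)

include hP

theorem g_act (s u : ℕ) (hu : s + 1 ≤ u) : ix (P.nn s) + 1 + P.k s < P.g u := by
  have h1 := hP.next s
  have h2 := hP.mono.monotone hu
  have h3 : ix (P.nn s) + 1 + P.k s + 1 ≤ ix (P.nn u) := ix_lev (h1.le.trans h2)
  show _ < ix (P.nn u) + 2 * u + 2
  omega

theorem g_big (u : ℕ) : 2 * u + 1 < 2 ^ P.g u := by
  have h1 : P.g u < 2 ^ P.g u := Nat.lt_two_pow_self
  have h2 : 2 * u + 2 ≤ P.g u := by
    show _ ≤ ix (P.nn u) + 2 * u + 2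
    omega
  omega

theorem exists_out (s : ℕ) (F : Finset (List Bool)) : ∃ F' D, P.Out s F F' D := by
  obtain ⟨D, h1, h2, h3⟩ := stage (G := GF) (g := P.g) (fun e he => he.1) (fun e he => he.2) P.R
    (P.pf s) (n := P.nn s) (a := s + 1) (k := P.k s)
    (q := LLn (P.S s) (Nat.unpair s).2 (NN P.c (P.nn s + ((P.pf s).length + 1))) *
      LLn (P.S s) (Nat.unpair s).2 (NN P.c (P.nn s + ((P.pf s).length + 1)))) F
    (hP.two s) (Nat.succ_pos s) (g_act hP s) (P.Sh s) (fun O hO => by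
      obtain ⟨Q, h1, h2, h3⟩ := short_q hO
      exact ⟨Q, h1, fun x hx => (h2 x hx).le.trans (hP.len s), h3⟩) (hP.size s)
  rcases h3 with h3 | ⟨u, h4, h5, h6⟩
  · exact ⟨F ∪ addD (P.pf s) D, D, h1, h2, Or.inl ⟨rfl, h3⟩⟩
  · exact ⟨_, D, h1, h2, Or.inr ⟨u, h4, h5, rfl, h6⟩⟩

/-- the finite sets -/
theorem exists_F : ∃ (F : ℕ → Finset (List Bool)) (D : ℕ → Finset (List Bool × List Bool)),
    F 0 = ∅ ∧ ∀ s, P.Out s (F s) (F (s + 1)) (D s) := by
  choose nx dd hnx using exists_out hP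
  let F : ℕ → Finset (List Bool) := fun s => Nat.rec ∅ (fun s F => nx s F) s
  exact ⟨F, fun s => dd s (F s), rfl, fun s => hnx s (F s)⟩

end

/-! ## The limit -/

open Classical in
/-- the union of the finite sets -/
noncomputable def YF (F : ℕ → Finset (List Bool)) : Lang := fun x => decide (∃ s, x ∈ F s)

theorem YF_iff {F : ℕ → Finset (List Bool)} {x : List Bool} : YF F x = true ↔ ∃ s, x ∈ F s := by
  classical
  simp [YF]

section

variable {P : Par} {α : ℕ → ℕ} {F : ℕ → Finset (List Bool)}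
  {D : ℕ → Finset (List Bool × List Bool)}

theorem out_sub {s : ℕ} {F F' : Finset (List Bool)} {D : Finset (List Bool × List Bool)}
    (h : P.Out s F F' D) : F ∪ addD (P.pf s) D ⊆ F' := by
  obtain ⟨-, -, ⟨h3, -⟩ | ⟨u, -, -, h4, -⟩⟩ := h
  · rw [h3]
  · rw [h4]
    exact Finset.subset_insert _ _

/-- the strings added at a stage -/
theorem out_new {s : ℕ} {F F' : Finset (List Bool)} {D : Finset (List Bool × List Bool)}
    (h : P.Out s F F' D) {x : List Bool} (hx : x ∈ F') (hx' : x ∉ F) :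
    (∃ d ∈ D, x = ad (ins (P.pf s) d.1) [] ∨ x = ad (ins (P.pf s) d.1) d.2) ∨
      ∃ u : List Bool, u.length = P.nn s ∧ x = ad (ins (P.pf s) u) [] ∧ (∀ d ∈ D, d.1 ≠ u) ∧
        P.Sh s (P.O (LF F')) := by
  have key : x ∈ F ∪ addD (P.pf s) D →
      ∃ d ∈ D, x = ad (ins (P.pf s) d.1) [] ∨ x = ad (ins (P.pf s) d.1) d.2 := by
    intro h1
    rcases Finset.mem_union.1 h1 with h2 | h2
    · exact absurd h2 hx'
    · unfold addD at h2
      rcases Finset.mem_union.1 h2 with h3 | h3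
      · obtain ⟨d, hd, rfl⟩ := Finset.mem_image.1 h3
        exact ⟨d, hd, Or.inl rfl⟩
      · obtain ⟨d, hd, rfl⟩ := Finset.mem_image.1 h3
        exact ⟨d, hd, Or.inr rfl⟩
  obtain ⟨-, h2, ⟨h3, -⟩ | ⟨u, h3, h4, h5, h6⟩⟩ := h
  · rw [h3] at hx
    exact Or.inl (key hx)
  · rw [h5] at hx
    rcases Finset.mem_insert.1 hx with h7 | h7
    · exact Or.inr ⟨u, h3, h7, h4, h6⟩
    · exact Or.inl (key h7)

/-- the new strings are addresses of instances of the stage -/
theorem out_ad {s : ℕ} {F F' : Finset (List Bool)} {D : Finset (List Bool × List Bool)}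
    (h : P.Out s F F' D) {x : List Bool} (hx : x ∈ F') (hx' : x ∉ F) :
    ∃ u y : List Bool, x = ad (ins (P.pf s) u) y ∧ u.length = P.nn s := by
  rcases out_new h hx hx' with ⟨d, hd, h1 | h1⟩ | ⟨u, h1, h2, -⟩
  · exact ⟨d.1, [], h1, (h.2.1 d hd).1⟩
  · exact ⟨d.1, d.2, h1, (h.2.1 d hd).1⟩
  · exact ⟨u, [], h2, h1⟩

theorem out_len {s : ℕ} {F F' : Finset (List Bool)} {D : Finset (List Bool × List Bool)}
    (h : P.Out s F F' D) {x : List Bool} (hx : x ∈ F') (hx' : x ∉ F) : P.nn s < x.length := by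
  obtain ⟨u, y, h1, h2⟩ := out_ad h hx hx'
  rw [h1, ad_len]
  unfold ins
  rw [List.length_cons, List.length_append]
  omega

theorem out_card {s : ℕ} {F F' : Finset (List Bool)} {D : Finset (List Bool × List Bool)}
    (h : P.Out s F F' D) : F'.card ≤ F.card + (2 * 2 ^ ((s + 1) * (P.k s + 1)) + 1) := by
  obtain ⟨h1, -, h2⟩ := h
  have h3 : (F ∪ addD (P.pf s) D).card ≤ F.card + 2 * 2 ^ ((s + 1) * (P.k s + 1)) := by
    refine (Finset.card_union_le _ _).trans (Nat.add_le_add_left ?_ _)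
    unfold addD
    refine (Finset.card_union_le _ _).trans ?_
    have h4 := Finset.card_image_le (s := D) (f := fun d => ad (ins (P.pf s) d.1) [])
    have h5 := Finset.card_image_le (s := D) (f := fun d => ad (ins (P.pf s) d.1) d.2)
    omega
  rcases h2 with ⟨h4, -⟩ | ⟨u, -, -, h4, -⟩
  · rw [h4]; omega
  · rw [h4]
    have := Finset.card_insert_le (ad (ins (P.pf s) u) []) (F ∪ addD (P.pf s) D)
    omega

variable (hP : P.Ok α) (hF0 : F 0 = ∅) (hF : ∀ s, P.Out s (F s) (F (s + 1)) (D s))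

include hF in
theorem F_mono {s t : ℕ} (h : s ≤ t) : F s ⊆ F t := by
  induction t, h using Nat.le_induction with
  | base => exact Finset.Subset.refl _
  | succ t _ ih => exact ih.trans (Finset.subset_union_left.trans (out_sub (hF t)))

include hF0 in
/-- the stage of a string -/
theorem exists_stage {x : List Bool} (h : YF F x = true) : ∃ s, x ∈ F (s + 1) ∧ x ∉ F s := by
  classical
  have h1 := YF_iff.1 h
  have h2 := Nat.find_spec h1
  rcases hk : Nat.find h1 with _ | k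
  · rw [hk, hF0] at h2
    exact absurd h2 (Finset.notMem_empty x)
  · rw [hk] at h2
    exact ⟨k, h2, Nat.find_min h1 (by omega)⟩

include hP hF0 hF in
theorem YF_short {s : ℕ} {x : List Bool} (hx : x.length ≤ P.nn s) : YF F x = LF (F s) x := by
  unfold LF
  rw [Bool.eq_iff_iff, decide_eq_true_eq]
  constructor
  · intro h
    obtain ⟨t, h1, h2⟩ := exists_stage hF0 h
    have h3 := out_len (hF t) h1 h2
    have h4 : t < s := by
      by_contra hcon
      have := hP.mono.monotone (Nat.not_lt.1 hcon)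
      omega
    exact F_mono hF h4 h1
  · intro h
    exact YF_iff.2 ⟨s, h⟩

include hP hF0 hF in
/-- the goal of a stage in the limit -/
theorem sh_iff (s : ℕ) : P.Sh s (P.O (YF F)) ↔ P.Sh s (P.O (LF (F (s + 1)))) := by
  have hag : ∀ x : List Bool, x.length ≤ P.nn (s + 1) →
      P.O (YF F) x = P.O (LF (F (s + 1))) x := by
    refine OT_agree (fun e he => he.1) (fun x hx => ?_)
    exact YF_short hP hF0 hF hx.le
  have key : ∀ O O' : Lang, (∀ x : List Bool, x.length ≤ P.nn (s + 1) → O x = O' x) →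
      P.Sh s O → P.Sh s O' := by
    intro O O' h hO
    obtain ⟨Q, -, h1, h2⟩ := short_q hO
    refine h2 O' (fun x hx => (h x ?_).symm)
    have h3 := h1 x hx
    have h4 := hP.len s
    have h5 := hP.next s
    omega
  exact ⟨key _ _ hag, key _ _ (fun x hx => (hag x hx).symm)⟩

include hP hF0 hF in
theorem few_Y (s : ℕ) {n : ℕ} (hn : n ≤ P.nn s) :
    {x : List Bool | x.length ≤ n ∧ YF F x = true}.ncard ≤ Par.tot P.k s := by
  classical
  have h1 : {x : List Bool | x.length ≤ n ∧ YF F x = true} ⊆ ((F s : Finset (List Bool)) :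
      Set (List Bool)) := by
    rintro x ⟨hx, h⟩
    rw [YF_short hP hF0 hF (hx.trans hn)] at h
    unfold LF at h
    exact Finset.mem_coe.2 (by simpa using h)
  refine (Set.ncard_le_ncard h1 (Finset.finite_toSet _)).trans ?_
  rw [Set.ncard_coe_finset]
  clear h1 hn
  induction s with
  | zero => rw [hF0]; exact Nat.zero_le _
  | succ s ih =>
    refine (out_card (hF s)).trans ?_
    unfold Par.tot at ih ⊢
    rw [Finset.sum_range_succ]
    omega

theorem ad_not_tally {z y : List Bool} (hz : true ∈ z) :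
    ad z y ≠ List.replicate (ad z y).length false := by
  intro h
  have h1 : true ∈ ad z y := by
    unfold ad
    exact List.mem_append_right _ (List.mem_cons_of_mem _ hz)
  rw [h] at h1
  have := List.eq_of_mem_replicate h1
  exact Bool.noConfusion this

theorem O_ad {Y : Lang} {p u y : List Bool} :
    P.O Y (true :: ad (ins p u) y) = Y (ad (ins p u) y) :=
  OT_Y (fun e he => he.1) _ _ (ad_not_tally List.mem_cons_self)

end

end Pool.Agent.TC
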