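import Pool.Agent.Lib_helper78.TC.Pot
import Pool.Agent.Lib_helper78.RF.F.QRY
import Pool.Agent.Lib_helper78.ADV.Rfn

/-!
# Consistency statements are families with short certificates of falsity
-/

set_option autoImplicit false

namespace Pool.Agent.TC

open Pool.Agent.CK Pool.Agent.RF Pool.Agent.CKP Pool.Agent.RO Pool.Agent.ADV Pool.Agent.FS

/-- the sentence `Con_T(n)` with the variable `5` for `n` -/
def conF (T : Th) : Fm :=
  Fm.all 1 (Fm.imp (Fm.le (Tm.len (Tm.var 1)) (Tm.var 5))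
    (Fm.neg (RF.Pr T (Tm.var 1) (num (val falsum.enc)))))

theorem conF_sb (T : Th) (n : ℕ) : (conF T).sb 5 (num n) = RF.Con T n := by
  simp only [conF, RF.Con, Fm.sb, RF.Pr, Tm.sb, clk_sb, SUB_tm_sb (num_has 5 _)]
  norm_num

theorem conF_free (T : Th) (j : ℕ) (h : (conF T).free j) : j = 5 := by
  have h1 : ¬ (num (val (cEnc T.1))).has j := num_has j _
  have h2 : (clk T.2 (Tm.var 1)).has j → 1 = j := fun h => SEM_clk_has h
  have h3 : ¬ (num (val falsum.enc)).has j := num_has j _
  simp only [conF, Fm.free, RF.Pr, Tm.has] at h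
  by_contra hj
  have hj' : ¬ 5 = j := fun h => hj h.symm
  tauto

/-- the family -/
def conE (T : Th) : Fam := (5, 4 * T.2 + 7, conF T)

theorem conE_at (T : Th) : (conE T).at = RF.Con T := by
  funext n
  exact conF_sb T n

theorem conE_dep (T : Th) (n : ℕ) : Dep T.2 n * Dep T.2 n ≤ 2 ^ (conE T).dep n := by
  have h0 := dep_poly T.2 n
  have h1 : n + 4 ≤ 2 ^ (2 * (Nat.size n + 1)) := by
    have h2 := lt_two_size n
    have h3 : 2 ^ (2 * (Nat.size n + 1)) = 2 ^ Nat.size n * (4 * 2 ^ Nat.size n) := by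
      have : 2 * (Nat.size n + 1) = Nat.size n + (2 + Nat.size n) := by ring
      rw [this, pow_add, pow_add]; norm_num
    have h4 := Nat.mul_le_mul_right (4 * 2 ^ Nat.size n)
      (Nat.one_le_two_pow (n := Nat.size n))
    have h5 := Nat.one_le_two_pow (n := Nat.size n)
    rw [h3]; omega
  have h2 : Dep T.2 n ≤ 2 ^ (2 * (Nat.size n + 1) * (T.2 + 2)) := by
    rw [pow_mul]
    exact h0.trans (Nat.pow_le_pow_left h1 _)
  have h3 : (conE T).dep n = 2 * (Nat.size n + 1) * (T.2 + 2) + 2 * (Nat.size n + 1) * (T.2 + 2) := by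
    show (4 * T.2 + 7 + 1) * (Nat.size n + 1) = _
    ring
  rw [h3, pow_add]
  exact Nat.mul_le_mul h2 h2

theorem conE_true {O : Lang} {T : Th} {n : ℕ} : ((conE T).at n).True O ↔ ConT O T n := by
  rw [conE_at]
  exact ⟨fun h => (holds_Con O (fun _ => 0) T n).1 (h _), fun h v => (holds_Con O v T n).2 h⟩

theorem conE_good (T : Th) : (conE T).Good := by
  refine ⟨conF_free T, fun n O O' hO => ?_⟩
  rw [conE_true, conE_true]
  refine ConT_congr (fun x hx => hO x (hx.le.trans (le_trans ?_ (conE_dep T n))))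
  rcases Nat.eq_zero_or_pos (Dep T.2 n) with h | h
  · rw [h]
  · exact Nat.le_mul_of_pos_left _ h

theorem conE_ref (T : Th) : Ref (conE T) := by
  intro n O h
  rw [conE_true] at h
  obtain ⟨Q, h1, -, h2⟩ := not_conT_queries h
  refine ⟨Q.toFinset, ((List.toFinset_card_le Q).trans h1).trans (conE_dep T n),
    fun O' hO' => ?_⟩
  rw [conE_true]
  exact h2 O' (fun q hq => hO' q (List.mem_toFinset.2 hq))

theorem conE_ok {O : Lang} {B : Fm → Prop} {T : Th} (hT : InT O B T) (n : ℕ) :
    ((conE T).at n).True O := conE_true.2 (inT_conT hT n)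

end Pool.Agent.TC
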