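import Pool.Agent.Lib_helper78.TC.Build

/-!
# Q1 is true and the variant with consistency is false
-/

set_option autoImplicit false

namespace Pool.Agent.TC

open Pool.Agent.CK Pool.Agent.RF Pool.Agent.CKP Pool.Agent.RO Pool.Agent.ADV Pool.Agent.FS Filter

theorem few_all {P : Par} {α : ℕ → ℕ} {F : ℕ → Finset (List Bool)}
    {D : ℕ → Finset (List Bool × List Bool)} (hP : P.Ok α) (hF0 : F 0 = ∅)
    (hF : ∀ s, P.Out s (F s) (F (s + 1)) (D s)) : Few α (WT GF P.g (YF F) P.R) := by
  classical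
  have hex : ∀ n, ∃ s, n < P.nn s := fun n => ⟨n + 1, hP.mono.id_le (n + 1)⟩
  intro n
  have h0 := Nat.find_spec (hex n)
  have h1 : ∀ s, s < Nat.find (hex n) → P.nn s ≤ n := fun s hs =>
    Nat.not_lt.1 (Nat.find_min (hex n) hs)
  -- the marks
  have h2 := few_marks (G := GF) (g := P.g) (α := fun n => 2 * Nat.find (hex n))
    (OT GF P.g (YF F) P.R) (fun u m hm => by
      have h3 : P.nn u ≤ m := by
        refine (two_lev (n := P.nn u)).le.trans (le_trans ?_ hm)
        refine Nat.pow_le_pow_right (by norm_num) (Nat.pow_le_pow_right (by norm_num) ?_)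
        show _ ≤ ix (P.nn u) + 2 * u + 2
        omega
      have h4 : u < Nat.find (hex m) := by
        by_contra hcon
        have h5 := hP.mono.monotone (Nat.not_lt.1 hcon)
        have h6 := Nat.find_spec (hex m)
        omega
      show 2 * u + 2 ≤ 2 * Nat.find (hex m)
      omega) n
  have h3 := few_Y hP hF0 hF (Nat.find (hex n)) h0.le
  have hfin : {x : List Bool | x.length ≤ n}.Finite := List.finite_length_le Bool n
  have h4 : {x : List Bool | x.length ≤ n ∧ WT GF P.g (YF F) P.R x = true} ⊆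
      {x : List Bool | x.length ≤ n ∧ Mark GF P.g (OT GF P.g (YF F) P.R) x} ∪
        {x : List Bool | x.length ≤ n ∧ YF F x = true} := by
    rintro x ⟨hx, hW⟩
    have hW' : OT GF P.g (YF F) P.R (true :: x) = true := hW
    by_cases ht : x = List.replicate x.length false
    · rw [ht, OT_tally (fun e he => he.1), ← ht] at hW'
      exact Or.inl ⟨hx, hW'⟩
    · rw [OT_Y (fun e he => he.1) _ _ ht] at hW'
      exact Or.inr ⟨hx, hW'⟩
  have h5 := Set.ncard_le_ncard h4 ((hfin.subset (fun x hx => hx.1)).union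
    (hfin.subset (fun x hx => hx.1)))
  have h6 := Set.ncard_union_le
    {x : List Bool | x.length ≤ n ∧ Mark GF P.g (OT GF P.g (YF F) P.R) x}
    {x : List Bool | x.length ≤ n ∧ YF F x = true}
  rcases Nat.eq_zero_or_pos (Nat.find (hex n)) with h7 | h7
  · have h8 : Par.tot P.k (Nat.find (hex n)) = 0 := by
      rw [h7]
      rfl
    have h9 : {x : List Bool | x.length ≤ n ∧ Mark GF P.g (OT GF P.g (YF F) P.R) x}.ncard ≤
      2 * Nat.find (hex n) := h2
    omega
  · have h8 := hP.few (Nat.find (hex n) - 1) n (h1 _ (by omega))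
    have h9 : {x : List Bool | x.length ≤ n ∧ Mark GF P.g (OT GF P.g (YF F) P.R) x}.ncard ≤
      2 * Nat.find (hex n) := h2
    have h10 : Nat.find (hex n) - 1 + 1 = Nat.find (hex n) := by omega
    rw [h10] at h8
    omega

/-- **The third case.** -/
theorem few_mixed (R : Lang) {α : ℕ → ℕ} (hα : Tendsto α atTop atTop) :
    ∃ W : Lang, Few α W ∧ (∃ B, BaseD (join R W) B ∧ ∀ σ, S12 σ → B σ) ∧
      ∀ B, Base (join R W) B →
        (∃ S, InT (join R W) B S ∧
          ∀ T, InT (join R W) B T → EasyProofs (join R W) S (RF.Con T)) ∧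
        ∀ S, InT (join R W) B S → ∃ T, InT (join R W) B T ∧
          ¬ PolyBounded (join R W) S (RFN T) := by
  have hc : Countable Cmd := Function.Injective.countable cEnc_inj
  obtain ⟨num, hnum⟩ := exists_injective_nat Th
  have : Nonempty (Th × Th) := ⟨((Cmd.skip, 0), (Cmd.skip, 0))⟩
  obtain ⟨cl, hcl⟩ := exists_surjective_nat (Th × Th)
  obtain ⟨c, hlen⟩ := witF_len
  obtain ⟨P, hP, rfl, rfl, rfl, rfl⟩ := exists_par R num cl c hα
  obtain ⟨F, D, hF0, hF⟩ := exists_F hP
  refine ⟨WT GF P.g (YF F) P.R, few_all hP hF0 hF, base_all _, ?_⟩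
  rw [← OT_eq (fun e he => he.1)]
  intro B hB
  have hg := g_big hP
  have hG : ∀ e, GF e → e.Good := fun e he => he.1
  refine ⟨?_, ?_⟩
  · obtain ⟨S, hS, hax⟩ := exists_S (G := GF) hG hg hB
    refine ⟨S, hS, fun T hT => ?_⟩
    have h1 := easy_test (G := GF) hG hg hax (conE T) ⟨conE_good T, conE_ref T⟩ (conE_ok hT)
    rwa [conE_at] at h1
  intro S hS
  have hOdef : OT GF P.g (YF F) P.R = P.O (YF F) := rfl
  rw [hOdef] at hB hS ⊢
  obtain ⟨T, hTh, hax⟩ := exists_TW hB (P.num S)
  have hext : ∀ σ, B σ → Ax (P.O (YF F)) T σ := fun σ hσ => (hax σ).mpr (Or.inl hσ)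
  -- stages of the pair
  have hst : ∀ s, P.S s = S → P.T s = T → P.pf s = pfxT T (P.num S) := by
    intro s h1 h2
    show pfxT (P.T s) (P.num (P.S s)) = _
    rw [h1, h2]
  have hst' : ∀ (s : ℕ) (u v : List Bool), ins (P.pf s) u = ins (pfxT T (P.num S)) v →
      P.S s = S ∧ P.T s = T ∧ u = v := by
    intro s u v h
    obtain ⟨h1, h2, h3⟩ := pfxT_inj (List.cons.inj h).2
    exact ⟨hnum h2, h1, h3⟩
  -- there is no flag without witness
  have hnoB : ∀ s, P.S s = S → P.T s = T → ∀ u : List Bool, u.length = P.nn s →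
      ad (ins (P.pf s) u) [] ∈ F (s + 1) → (∀ d ∈ D s, d.1 ≠ u) →
      ¬ P.Sh s (P.O (LF (F (s + 1)))) := by
    intro s hs1 hs2 u hu hfl hno hSh
    rw [← sh_iff hP hF0 hF] at hSh
    have hz : ins (P.pf s) u = true :: (pfxT T (P.num S) ++ u) := by
      rw [hst s hs1 hs2]
      rfl
    have hM : ¬ MuT (P.O (YF F)) e1 (val (ins (P.pf s) u)) (zz (ins (P.pf s) u).length) := by
      intro hM
      rcases of_mu hM with h1 | ⟨y, hy, h1⟩
      · rw [O_ad, YF_iff.2 ⟨s + 1, hfl⟩] at h1
        exact Bool.noConfusion h1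
      · rw [O_ad] at h1
        obtain ⟨t, h2, h3⟩ := exists_stage hF0 h1
        rcases out_new (hF t) h2 h3 with ⟨d, hd, h4 | h4⟩ | ⟨v, hv, h4, -⟩
        · exact hy (ad_inj h4).2
        · obtain ⟨h5, h6⟩ := ad_inj h4
          rw [hst s hs1 hs2] at h5
          obtain ⟨h7, h8, h9⟩ := hst' t _ _ h5.symm
          have h10 := ((hF t).2.1 d hd).1
          have h11 : P.nn t = P.nn s := by rw [← h10, h9, hu]
          have h12 := hP.mono.injective h11
          subst h12
          exact hno d hd h9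
        · exact hy (ad_inj h4).2
    obtain ⟨l, hl, -⟩ := hSh
    rw [hs1, hs2] at hl
    have hzl : (ins (P.pf s) u).length = P.nn s + ((P.pf s).length + 1) := by
      unfold ins
      rw [List.length_cons, List.length_append, hu]
      omega
    obtain ⟨g1, g2, g3, g4⟩ := hlen (ins (P.pf s) u)
    rw [← hzl] at hl
    have hR : ¬ RfnT (P.O (YF F)) T (NN P.c (ins (P.pf s) u).length) := by
      refine not_rfn ((hax _).2 (Or.inr ⟨u, ?_⟩)) hM g1 g2 g3 g4
      rw [hz]
    have h1 : ¬ (RFN T (NN P.c (ins (P.pf s) u).length)).True (P.O (YF F)) := fun hh =>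
      hR ((holds_RFN _ (fun _ => 0) T _).mp (hh _))
    exact hS.cons (prv_bot ⟨l, hl⟩ (prv_mono hS.ext (hB.refRFN T _ h1)))
  -- the axioms are true
  have htrue : ∀ σ, Ax (P.O (YF F)) T σ → σ.True (P.O (YF F)) := by
    intro σ hσ
    rcases (hax σ).mp hσ with h | ⟨u, rfl⟩
    · exact hB.isTrue σ h
    refine witF_true ?_
    show MuT _ e1 (val (ins (pfxT T (P.num S)) u)) (zz (ins (pfxT T (P.num S)) u).length)
    cases hO : P.O (YF F) (true :: ad (ins (pfxT T (P.num S)) u) []) with
    | false => exact mu_of (y := []) (Nat.zero_le _) (Or.inl ⟨rfl, hO⟩)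
    | true =>
      rw [O_ad] at hO
      obtain ⟨t, h2, h3⟩ := exists_stage hF0 hO
      rcases out_new (hF t) h2 h3 with ⟨d, hd, h4 | h4⟩ | ⟨v, hv, h4, h5, h6⟩
      · obtain ⟨h5, -⟩ := ad_inj h4
        obtain ⟨h7, h8, h9⟩ := hst' t _ _ h5.symm
        obtain ⟨h10, h11⟩ := (hF t).2.1 d hd
        have h12 : ad (ins (P.pf t) d.1) d.2 ∈ F (t + 1) := by
          refine out_sub (hF t) (Finset.mem_union_right _ ?_)
          exact Finset.mem_union_right _ (Finset.mem_image.2 ⟨d, hd, rfl⟩)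
        refine mu_of (y := d.2) ?_ (Or.inr ⟨?_, ?_⟩)
        · unfold ins
          rw [List.length_cons, List.length_append, ← h9]
          omega
        · intro h13
          have := hP.two t
          rw [h13] at h11
          simp at h11
          omega
        · rw [O_ad, h5]
          exact YF_iff.2 ⟨t + 1, h12⟩
      · have h5 := (ad_inj h4).2
        have h6 := ((hF t).2.1 d hd).2
        have := hP.two t
        rw [← h5] at h6
        simp at h6
        omega
      · obtain ⟨h7, -⟩ := ad_inj h4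
        obtain ⟨h8, h9, h10⟩ := hst' t _ _ h7.symm
        refine absurd h6 (hnoB t h8 h9 v hv ?_ h5)
        rw [← h4]
        exact h2
  refine ⟨T, ⟨hTh, hext, ?_, ?_⟩, ?_⟩
  · intro σ hσ
    rcases (hax σ).mp hσ with h | ⟨u, rfl⟩
    · exact hB.closed σ h
    · exact closed_mu _ _ _
  · intro h
    have h1 := sound htrue h (fun _ => 0)
    exact h1 rfl
  · rintro ⟨c0, hc0⟩
    obtain ⟨m, hm⟩ := hcl (S, T)
    set s := Nat.pair m c0 with hs
    have hu : Nat.unpair s = (m, c0) := Nat.unpair_pair _ _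
    have h1 : P.S s = S := by
      show (P.cl (Nat.unpair s).1).1 = S
      rw [hu, hm]
    have h2 : P.T s = T := by
      show (P.cl (Nat.unpair s).1).2 = T
      rw [hu, hm]
    have h3 : P.Sh s (P.O (YF F)) := by
      show Short (P.S s) (P.T s) (Nat.unpair s).2 (NN P.c (P.nn s + ((P.pf s).length + 1))) _
      rw [h1, h2, hu]
      exact hc0 _
    rw [sh_iff hP hF0 hF] at h3
    obtain ⟨-, -, ⟨-, h4⟩ | ⟨u, h4, h5, h6, h7⟩⟩ := hF s
    · exact h4 h3
    · refine hnoB s h1 h2 u h4 ?_ h5 h7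
      rw [h6]
      exact Finset.mem_insert_self _ _

end Pool.Agent.TC
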