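import Pool.Agent.Lib_helper78.TC.Tal

/-!
# The marks and the potential
-/

set_option autoImplicit false

namespace Pool.Agent.TC

open Pool.Agent.CK Pool.Agent.RF Pool.Agent.CKP Pool.Agent.RO Pool.Agent.ADV Pool.Agent.FS

/-- the falsity of a member of the family is due to few bits of the oracle -/
def Ref (e : Fam) : Prop := ∀ (n : ℕ) (O : Lang), ¬ (e.at n).True O →
  ∃ Q : Finset (List Bool), Q.card ≤ 2 ^ e.dep n ∧
    ∀ O' : Lang, (∀ x ∈ Q, O' x = O x) → ¬ (e.at n).True O'

/-! ## Binary numbers -/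

/-- the number with the binary digits `f 0, f 1, ..` -/
def pv (f : ℕ → Bool) : ℕ → ℕ
  | 0 => 0
  | V + 1 => 2 * pv f V + (f V).toNat

theorem pv_lt (f : ℕ → Bool) (V : ℕ) : pv f V < 2 ^ V := by
  induction V with
  | zero => simp [pv]
  | succ V ih =>
    have h : (f V).toNat ≤ 1 := Bool.toNat_le _
    rw [pow_succ]
    unfold pv
    omega

theorem pv_cmp {f f' : ℕ → Bool} {V : ℕ}
    (h : ∀ t < V, (∀ s < t, f s = f' s) → f t = true → f' t = true) :
    pv f V ≤ pv f' V ∧ (pv f V = pv f' V → ∀ t < V, f t = f' t) := by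
  induction V with
  | zero => exact ⟨le_rfl, fun _ t ht => absurd ht (Nat.not_lt_zero t)⟩
  | succ V ih =>
    obtain ⟨h1, h2⟩ := ih (fun t ht => h t (by omega))
    have b1 : (f V).toNat ≤ 1 := Bool.toNat_le _
    have b2 : (f' V).toNat ≤ 1 := Bool.toNat_le _
    rcases Nat.lt_or_eq_of_le h1 with h3 | h3
    · unfold pv
      exact ⟨by omega, fun h4 => by omega⟩
    · have h4 := h2 h3
      have h5 := h V (Nat.lt_succ_self V) h4
      have h6 : (f V).toNat ≤ (f' V).toNat := by
        cases hf : f V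
        · exact Nat.zero_le _
        · rw [h5 hf]
      refine ⟨by unfold pv; omega, fun h7 t ht => ?_⟩
      rcases Nat.lt_or_eq_of_le (Nat.le_of_lt_succ ht) with h8 | h8
      · exact h4 t h8
      · subst h8
        unfold pv at h7
        have h9 : (f t).toNat = (f' t).toNat := by omega
        cases hf : f t <;> cases hf' : f' t <;> simp_all

/-! ## The marks depend on the lower part of the oracle -/

section

variable {G : Fam → Prop} {g : ℕ → ℕ}

theorem agree_low (hG : ∀ e, G e → e.Good) {Y Y' R : Lang} {l : ℕ} {Δ : Set (List Bool)}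
    (hlow : ∀ l' < l, ∀ u, Dead G g (OT G g Y R) u l' ↔ Dead G g (OT G g Y' R) u l')
    (hY : ∀ x : List Bool, x.length < 2 ^ 2 ^ l → (true :: x) ∉ Δ → Y x = Y' x)
    (x : List Bool) (hx : x.length ≤ 2 ^ 2 ^ l) (hxD : x ∉ Δ) :
    OT G g Y R x = OT G g Y' R x := by
  match x with
  | [] => rw [OT_nil hG, OT_nil hG]
  | false :: x => rw [OT_false hG, OT_false hG]
  | true :: x =>
    rw [List.length_cons] at hx
    by_cases ht : x = List.replicate x.length false
    · have h1 : Mark G g (OT G g Y R) x ↔ Mark G g (OT G g Y' R) x := by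
        have key : ∀ {Y Y' : Lang}, (∀ l' < l, ∀ u, Dead G g (OT G g Y R) u l' →
            Dead G g (OT G g Y' R) u l') → Mark G g (OT G g Y R) x →
            Mark G g (OT G g Y' R) x := by
          rintro Y Y' hl ⟨l', u, b, h2, h3, h4⟩
          refine ⟨l', u, b, h2, h3, h4.imp id (fun h5 => ⟨h5.1, hl l' ?_ u h5.2⟩)⟩
          have h6 := congrArg List.length h2
          rw [List.length_replicate] at h6
          have h7 : 2 ^ (2 ^ l' + 2 * u + b) < 2 ^ 2 ^ l := by omega
          have h8 := (Nat.pow_lt_pow_iff_right (by norm_num : 1 < 2)).1 h7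
          have h9 : 2 ^ l' < 2 ^ l := by omega
          exact (Nat.pow_lt_pow_iff_right (by norm_num : 1 < 2)).1 h9
        exact ⟨key (fun l' hl u => (hlow l' hl u).1), key (fun l' hl u => (hlow l' hl u).2)⟩
      rw [ht, Bool.eq_iff_iff, OT_tally hG, OT_tally hG, ← ht]
      exact h1
    · rw [OT_Y hG _ _ ht, OT_Y hG _ _ ht]
      exact hY x (by omega) hxD

/-- if the lower marks agree, falsity is inherited -/
theorem false_step (hG : ∀ e, G e → e.Good) {Y Y' R : Lang} {l : ℕ} {Δ : Set (List Bool)}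
    (hlow : ∀ l' < l, ∀ u, Dead G g (OT G g Y R) u l' ↔ Dead G g (OT G g Y' R) u l')
    (hY : ∀ x : List Bool, x.length < 2 ^ 2 ^ l → (true :: x) ∉ Δ → Y x = Y' x)
    {Q : Finset (List Bool)} (hQ : ∀ x ∈ Q, x ∉ Δ) {e : Fam} (he : G e) {n : ℕ}
    (hn : e.dep n ≤ 2 ^ l)
    (hcert : ∀ O'' : Lang, (∀ x ∈ Q, O'' x = OT G g Y R x) → ¬ (e.at n).True O'') :
    ¬ (e.at n).True (OT G g Y' R) := by
  classical
  let O'' : Lang := fun x => if x.length ≤ 2 ^ 2 ^ l then OT G g Y' R x else OT G g Y R x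
  have h1 : ¬ (e.at n).True O'' := by
    refine hcert O'' (fun x hx => ?_)
    show (if x.length ≤ 2 ^ 2 ^ l then OT G g Y' R x else OT G g Y R x) = _
    split_ifs with h
    · exact (agree_low hG hlow hY x h (hQ x hx)).symm
    · rfl
  intro h2
  refine h1 (((hG e he).2 n (OT G g Y' R) O'' (fun x hx => ?_)).1 h2)
  show _ = (if x.length ≤ 2 ^ 2 ^ l then OT G g Y' R x else OT G g Y R x)
  rw [if_pos (hx.trans (Nat.pow_le_pow_right (by norm_num) hn))]

theorem dead_step (hG : ∀ e, G e → e.Good) {Y Y' R : Lang} {l u : ℕ} {Δ : Set (List Bool)}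
    (hlow : ∀ l' < l, ∀ u, Dead G g (OT G g Y R) u l' ↔ Dead G g (OT G g Y' R) u l')
    (hY : ∀ x : List Bool, x.length < 2 ^ 2 ^ l → (true :: x) ∉ Δ → Y x = Y' x)
    {Q : Finset (List Bool)} (hQ : ∀ x ∈ Q, x ∉ Δ)
    (hcert : ∀ e, G e → cod e = u → ∀ n, e.dep n ≤ 2 ^ l → ¬ (e.at n).True (OT G g Y R) →
      ∀ O'' : Lang, (∀ x ∈ Q, O'' x = OT G g Y R x) → ¬ (e.at n).True O'')
    (h : Dead G g (OT G g Y R) u l) : Dead G g (OT G g Y' R) u l := by
  obtain ⟨e, h1, h2, h3, h4, h5⟩ := h
  refine ⟨e, h1, h2, h3, ?_, fun l' h6 h7 => ?_⟩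
  · unfold Alive at h4 ⊢
    push Not at h4 ⊢
    obtain ⟨n, hn, h6⟩ := h4
    exact ⟨n, hn, false_step hG hlow hY hQ h2 hn (hcert e h2 h1 n hn h6)⟩
  · by_contra h8
    subst h1
    obtain ⟨l'', h9, h10⟩ := (dead_iff (g := g) h2 h6).2 h8
    have h11 := (hlow l'' (by omega) _).2 h10
    obtain ⟨e', h12, -, h13, h14, -⟩ := h11
    have := cod_inj h12
    subst this
    exact h14 (h5 l'' h13 (by omega))

open Classical in
/-- the digits of the potential -/
noncomputable def dig (G : Fam → Prop) (g : ℕ → ℕ) (a l0 : ℕ) (O : Lang) (t : ℕ) : Bool :=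
  decide (Dead G g O (t % a) (l0 + t / a))

theorem dig_iff {a l0 : ℕ} {O : Lang} {t : ℕ} :
    dig G g a l0 O t = true ↔ Dead G g O (t % a) (l0 + t / a) := by
  classical
  simp [dig]

/-- the comparison of two worlds which differ in `Δ` -/
theorem pot_step (hG : ∀ e, G e → e.Good) {Y Y' R : Lang} {a l0 d : ℕ} {Δ : Set (List Bool)}
    (ha : 0 < a) (hact : ∀ u, a ≤ u → l0 + d < g u)
    (hbase : ∀ l' < l0, ∀ u, Dead G g (OT G g Y R) u l' ↔ Dead G g (OT G g Y' R) u l')
    (hY : ∀ x : List Bool, x.length < 2 ^ 2 ^ (l0 + d) → (true :: x) ∉ Δ → Y x = Y' x)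
    {Q : Finset (List Bool)} (hQ : ∀ x ∈ Q, x ∉ Δ)
    (hcert : ∀ e, G e → cod e < a → ∀ n, e.dep n ≤ 2 ^ (l0 + d) →
      ¬ (e.at n).True (OT G g Y R) →
      ∀ O'' : Lang, (∀ x ∈ Q, O'' x = OT G g Y R x) → ¬ (e.at n).True O'') :
    pv (dig G g a l0 (OT G g Y R)) (a * (d + 1)) ≤
      pv (dig G g a l0 (OT G g Y' R)) (a * (d + 1)) ∧
    (pv (dig G g a l0 (OT G g Y R)) (a * (d + 1)) =
      pv (dig G g a l0 (OT G g Y' R)) (a * (d + 1)) →
      ∀ l' < l0 + d + 1, ∀ u, Dead G g (OT G g Y R) u l' ↔ Dead G g (OT G g Y' R) u l') := by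
  -- agreement of all digits below gives agreement of all lower marks
  have hconv : ∀ T : ℕ, (∀ s < T, dig G g a l0 (OT G g Y R) s = dig G g a l0 (OT G g Y' R) s) →
      T ≤ a * (d + 1) → ∀ l', l' < l0 + T / a → ∀ u,
      (Dead G g (OT G g Y R) u l' ↔ Dead G g (OT G g Y' R) u l') := by
    intro T hT hTd l' hl' u
    rcases Nat.lt_or_ge l' l0 with h1 | h1
    · exact hbase l' h1 u
    · rcases Nat.lt_or_ge u a with h2 | h2
      · have h3 : a * (l' - l0) + u < T := by
          have h4 : l' - l0 + 1 ≤ T / a := by omega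
          have h5 := (Nat.le_div_iff_mul_le ha).1 h4
          nlinarith
        have h4 := hT _ h3
        rw [Bool.eq_iff_iff, dig_iff, dig_iff, Nat.mul_add_mod, Nat.mod_eq_of_lt h2,
          Nat.mul_add_div ha, Nat.div_eq_of_lt h2, Nat.add_zero, Nat.add_sub_cancel' h1] at h4
        exact h4
      · have h3 : T / a ≤ d + 1 := by
          have := Nat.div_le_div_right (c := a) hTd
          rwa [Nat.mul_div_cancel_left _ ha] at this
        have h4 := hact u h2
        constructor
        · rintro ⟨-, -, -, h5, -⟩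
          omega
        · rintro ⟨-, -, -, h5, -⟩
          omega
  have hmain := pv_cmp (f := dig G g a l0 (OT G g Y R)) (f' := dig G g a l0 (OT G g Y' R))
    (V := a * (d + 1)) (fun t ht hlow h => ?_)
  · refine ⟨hmain.1, fun h l' hl' u => ?_⟩
    refine hconv (a * (d + 1)) (hmain.2 h) le_rfl l' ?_ u
    rw [Nat.mul_div_cancel_left _ ha]
    omega
  · have h1 := hconv t hlow ht.le
    have h2 : t / a ≤ d := by
      have := (Nat.div_lt_iff_lt_mul ha).2 (show t < (d + 1) * a by rwa [mul_comm])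
      omega
    have h3 : 2 ^ (l0 + t / a) ≤ 2 ^ (l0 + d) := Nat.pow_le_pow_right (by norm_num) (by omega)
    rw [dig_iff] at h ⊢
    refine dead_step hG h1 (fun x hx => hY x (hx.trans_le
      (Nat.pow_le_pow_right (by norm_num) h3))) hQ (fun e he hc n hn => ?_) h
    exact hcert e he (by rw [hc]; exact Nat.mod_lt _ ha) n (hn.trans h3)

/-- worlds which agree on the short strings have the same low marks -/
theorem base_agree (hG : ∀ e, G e → e.Good) {Y Y' R : Lang} (l : ℕ)
    (hY : ∀ x : List Bool, x.length < 2 ^ 2 ^ l → Y x = Y' x) :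
    ∀ l' ≤ l, ∀ u, Dead G g (OT G g Y R) u l' ↔ Dead G g (OT G g Y' R) u l' := by
  intro l'
  induction l' using Nat.strong_induction_on with
  | _ l' ih =>
    intro hl' u
    have h1 : ∀ l'' < l', ∀ u, Dead G g (OT G g Y R) u l'' ↔ Dead G g (OT G g Y' R) u l'' :=
      fun l'' h u => ih l'' h (by omega) u
    have h2 : 2 ^ 2 ^ l' ≤ 2 ^ 2 ^ l :=
      Nat.pow_le_pow_right (by norm_num) (Nat.pow_le_pow_right (by norm_num) hl')
    have h3 : ∀ y : List Bool, y.length ≤ 2 ^ 2 ^ l' → OT G g Y R y = OT G g Y' R y :=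
      fun y hy => agree_low (Δ := ∅) hG h1 (fun x hx _ => hY x (hx.trans_le h2)) y hy
        (Set.notMem_empty _)
    exact ⟨dead_congr hG h3, dead_congr hG (fun y hy => (h3 y hy).symm)⟩

/-- worlds which agree on the short strings -/
theorem OT_agree (hG : ∀ e, G e → e.Good) {Y Y' R : Lang} {N : ℕ}
    (hY : ∀ x : List Bool, x.length < N → Y x = Y' x) :
    ∀ x : List Bool, x.length ≤ N → OT G g Y R x = OT G g Y' R x := by
  intro x
  induction hn : x.length using Nat.strong_induction_on generalizing x with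
  | _ n ih =>
    intro hN
    subst hn
    match x with
    | [] => rw [OT_nil hG, OT_nil hG]
    | false :: x => rw [OT_false hG, OT_false hG]
    | true :: x =>
      rw [List.length_cons] at hN ih
      by_cases ht : x = List.replicate x.length false
      · have h1 : ∀ y : List Bool, y.length ≤ x.length → OT G g Y R y = OT G g Y' R y :=
          fun y hy => ih y.length (by omega) y rfl (by omega)
        rw [ht, Bool.eq_iff_iff, OT_tally hG, OT_tally hG, ← ht]
        exact ⟨mark_congr hG h1, mark_congr hG (fun y hy => (h1 y hy).symm)⟩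
      · rw [OT_Y hG _ _ ht, OT_Y hG _ _ ht]
        exact hY x (by omega)

end

end Pool.Agent.TC
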