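import Pool.Agent.Lib_helper78.TC.Stage
import Pool.Agent.Lib_helper78.TC.CFam
import Pool.Agent.Lib_helper78.RF.F.SEQ
import Pool.Agent.Lib_helper78.RF.F.QRY

/-!
# Short proofs of reflection; the sequence of lengths
-/

set_option autoImplicit false

namespace Pool.Agent.TC

open Pool.Agent.CK Pool.Agent.RF Pool.Agent.CKP Pool.Agent.RO Pool.Agent.ADV Pool.Agent.FS Filter

/-- there is a short proof in `S` of `RFN_T(N)` -/
def Short (S T : Th) (a N : ℕ) (O : Lang) : Prop :=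
  ∃ l : List Fm, IsProof (Ax O S) (l ++ [RFN T N]) ∧
    (pEnc (l ++ [RFN T N])).length ≤ N ^ a + a

/-- the bound for the lengths of the questions -/
def LLn (S : Th) (a N : ℕ) : ℕ := (N ^ a + a) + (N ^ a + a + 2) ^ S.2 + 1

theorem short_q {S T : Th} {a N : ℕ} {O : Lang} (h : Short S T a N O) :
    ∃ Q : Finset (List Bool), Q.card ≤ LLn S a N * LLn S a N ∧
      (∀ x ∈ Q, x.length < LLn S a N) ∧
      ∀ O' : Lang, (∀ x ∈ Q, O' x = O x) → Short S T a N O' := by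
  obtain ⟨l, hp, hl⟩ := h
  have h2 := QRY_lines (l ++ [RFN T N])
  have key : ∀ σ ∈ l ++ [RFN T N], (σ.enc.length + 2) ^ S.2 ≤ (N ^ a + a + 2) ^ S.2 := by
    intro σ hσ
    have h6 := QRY_mem_len hσ
    exact Nat.pow_le_pow_left (by omega) _
  obtain ⟨Q, hQ1, hQ2, hQ3⟩ := proof_queries O S.1 (fun σ => (σ.enc.length + 2) ^ S.2)
    (l ++ [RFN T N]) (LLn S a N) (LLn S a N) (fun σ hσ => by
      have h6 := QRY_mem_len hσ
      have h7 := key σ hσ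
      change (σ.enc.length + 2) ^ S.2 ≤ LLn S a N ∧
        σ.enc.length + (σ.enc.length + 2) ^ S.2 ≤ LLn S a N
      unfold LLn
      constructor <;> omega) hp
  refine ⟨Q.toFinset, (List.toFinset_card_le Q).trans (hQ1.trans (Nat.mul_le_mul_right _ ?_)),
    fun x hx => hQ2 x (List.mem_toFinset.1 hx), fun O' hO' => ?_⟩
  · unfold LLn; omega
  · exact ⟨l, hQ3 O' (fun q hq => hO' q (List.mem_toFinset.2 hq)), hl⟩

theorem two_lev {n : ℕ} : n < 2 ^ 2 ^ (ix n + 1) := by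
  unfold ix
  have h1 : n < 2 ^ (Nat.log 2 n + 1) := Nat.lt_pow_succ_log_self (by norm_num) _
  have h2 : Nat.log 2 n < 2 ^ (Nat.log 2 (Nat.log 2 n) + 1) :=
    Nat.lt_pow_succ_log_self (by norm_num) _
  exact h1.trans_le (Nat.pow_le_pow_right (by norm_num) h2)

theorem exists_k (S : Th) (a c b A : ℕ) : ∃ k : ℕ, ∀ᶠ n : ℕ in atTop, 2 ≤ n ∧
    LLn S a (NN c (n + b)) ≤ 2 ^ 2 ^ (ix n + 1 + k + 1) ∧
    LLn S a (NN c (n + b)) * LLn S a (NN c (n + b)) +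
      A * (2 ^ 2 ^ (ix n + 1 + k) * 2 ^ 2 ^ (ix n + 1 + k)) + 2 ^ (A * (k + 1)) < 2 ^ n := by
  have hNN : SEQ_PB (fun m => NN c (m + b)) :=
    SEQ_mul (SEQ_const c) (SEQ_pow (SEQ_add (SEQ_add SEQ_id (SEQ_const b)) (SEQ_const 2)) 5)
  have h1 : SEQ_PB (fun m => NN c (m + b) ^ a + a) := SEQ_add (SEQ_pow hNN _) (SEQ_const _)
  have hL : SEQ_PB (fun m => LLn S a (NN c (m + b))) :=
    SEQ_add (SEQ_add h1 (SEQ_pow (SEQ_add h1 (SEQ_const 2)) _)) (SEQ_const 1)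
  obtain ⟨E, hE⟩ := id hL
  refine ⟨2 * E, ?_⟩
  set k := 2 * E with hk
  have hbig : SEQ_PB (fun n => LLn S a (NN c (n + b)) * LLn S a (NN c (n + b)) +
      A * (n ^ 2 ^ (k + 1) * n ^ 2 ^ (k + 1)) + 2 ^ (A * (k + 1))) :=
    SEQ_add (SEQ_add (SEQ_mul hL hL) (SEQ_mul (SEQ_const A)
      (SEQ_mul (SEQ_pow SEQ_id _) (SEQ_pow SEQ_id _)))) (SEQ_const _)
  filter_upwards [SEQ_lt hbig, eventually_ge_atTop 2] with n hn h2
  refine ⟨h2, ?_, lt_of_le_of_lt ?_ hn⟩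
  · refine (hE n).trans ?_
    have g1 : n + 2 ≤ n ^ 2 := by nlinarith
    have g2 : (n + 2) ^ E ≤ n ^ (2 * E) := by
      rw [pow_mul]
      exact Nat.pow_le_pow_left g1 E
    have g3 : n ^ (2 * E) ≤ n ^ 2 ^ (k + 1) := by
      refine Nat.pow_le_pow_right (by omega) ?_
      have : k + 1 < 2 ^ (k + 1) := Nat.lt_two_pow_self
      omega
    have g4 : n ^ 2 ^ (k + 1) ≤ (2 ^ 2 ^ (ix n + 1)) ^ 2 ^ (k + 1) :=
      Nat.pow_le_pow_left two_lev.le _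
    have g5 : (2 ^ 2 ^ (ix n + 1)) ^ 2 ^ (k + 1) = 2 ^ 2 ^ (ix n + 1 + k + 1) := by
      rw [← pow_mul, ← pow_add]
      congr 2
    rw [g5] at g4
    exact g2.trans (g3.trans g4)
  · have g1 : 2 ^ 2 ^ (ix n + 1 + k) ≤ n ^ 2 ^ (k + 1) := by
      have g2 : (2 ^ 2 ^ ix n) ^ 2 ^ (k + 1) = 2 ^ 2 ^ (ix n + 1 + k) := by
        rw [← pow_mul, ← pow_add]
        congr 2
        omega
      rw [← g2]
      exact Nat.pow_le_pow_left (lev_le h2) _
    exact Nat.add_le_add_right (Nat.add_le_add_left (Nat.mul_le_mul_left _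
      (Nat.mul_le_mul g1 g1)) _) _

end Pool.Agent.TC
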