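import Pool.Agent.Lib_helper78.FS.Test

/-!
# Tally marks beside an arbitrary set
-/

set_option autoImplicit false

namespace Pool.Agent.TC

open Pool.Agent.CK Pool.Agent.RF Pool.Agent.CKP Pool.Agent.RO Pool.Agent.ADV Pool.Agent.FS

/-- the family with number `u` is activated at level `l` -/
def Act (G : Fam → Prop) (g : ℕ → ℕ) (u l : ℕ) : Prop := ∃ e : Fam, cod e = u ∧ G e ∧ l = g u

/-- the family with number `u` is first seen to be false at level `l` -/
def Dead (G : Fam → Prop) (g : ℕ → ℕ) (O : Lang) (u l : ℕ) : Prop :=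
  ∃ e : Fam, cod e = u ∧ G e ∧ g u ≤ l ∧ ¬ Alive O e l ∧ ∀ l', g u ≤ l' → l' < l → Alive O e l'

/-- the marks -/
def Mark (G : Fam → Prop) (g : ℕ → ℕ) (O : Lang) (x : List Bool) : Prop :=
  ∃ l u b : ℕ, x = List.replicate (2 ^ (2 ^ l + 2 * u + b)) false ∧ 2 * u + 1 < 2 ^ l ∧
    ((b = 0 ∧ Act G g u l) ∨ (b = 1 ∧ Dead G g O u l))

section

variable {G : Fam → Prop} {g : ℕ → ℕ}

theorem dead_congr (hG : ∀ e, G e → e.Good) {O O' : Lang} {u l : ℕ}
    (h : ∀ y : List Bool, y.length ≤ 2 ^ 2 ^ l → O y = O' y) (h' : Dead G g O u l) :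
    Dead G g O' u l := by
  obtain ⟨e, h1, h2, h3, h4, h5⟩ := h'
  refine ⟨e, h1, h2, h3, fun h6 => h4 (alive_congr (hG e h2) (fun y hy => (h y hy).symm) h6), ?_⟩
  intro l' h6 h7
  refine alive_congr (hG e h2) (fun y hy => h y (hy.trans ?_)) (h5 l' h6 h7)
  exact Nat.pow_le_pow_right (by norm_num) (Nat.pow_le_pow_right (by norm_num) h7.le)

theorem mark_congr (hG : ∀ e, G e → e.Good) {O O' : Lang} {x : List Bool}
    (h : ∀ y : List Bool, y.length ≤ x.length → O y = O' y) (hx : Mark G g O x) :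
    Mark G g O' x := by
  obtain ⟨l, u, b, h1, h2, h3⟩ := hx
  refine ⟨l, u, b, h1, h2, h3.imp id (fun h4 => ⟨h4.1, dead_congr hG (fun y hy => h y ?_) h4.2⟩)⟩
  rw [h1, List.length_replicate]
  exact hy.trans (Nat.pow_le_pow_right (by norm_num) (by omega))

open Classical in
/-- the operator: marks at the tally strings, `Y` at the other strings -/
noncomputable def RT (G : Fam → Prop) (g : ℕ → ℕ) (Y O : Lang) : Lang
  | true :: x => if x = List.replicate x.length false then decide (Mark G g O x) else Y x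
  | _ => false

/-- the oracle `R ⊕ W` -/
noncomputable def OT (G : Fam → Prop) (g : ℕ → ℕ) (Y R : Lang) : Lang :=
  mkO (RT G g Y) (fun x => R x.tail)

/-- the set -/
noncomputable def WT (G : Fam → Prop) (g : ℕ → ℕ) (Y R : Lang) : Lang :=
  fun x => OT G g Y R (true :: x)

theorem RT_local (hG : ∀ e, G e → e.Good) (Y : Lang) : Local (RT G g Y) := by
  intro x O O' h
  match x with
  | [] => rfl
  | false :: x => rfl
  | true :: x =>
    have h1 : ∀ y : List Bool, y.length ≤ x.length → O y = O' y := fun y hy =>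
      h y (by rw [List.length_cons]; omega)
    have h2 : Mark G g O x ↔ Mark G g O' x :=
      ⟨mark_congr hG h1, mark_congr hG (fun y hy => (h1 y hy).symm)⟩
    simp only [RT]
    rw [decide_eq_decide.2 h2]

theorem OT_true (hG : ∀ e, G e → e.Good) (Y R : Lang) (x : List Bool) :
    OT G g Y R (true :: x) = RT G g Y (OT G g Y R) (true :: x) := by
  conv_lhs => unfold OT
  rw [mkO_eq (RT_local hG Y), if_neg (by simp)]
  rfl

theorem OT_eq (hG : ∀ e, G e → e.Good) (Y R : Lang) : OT G g Y R = join R (WT G g Y R) := by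
  funext x
  match x with
  | [] =>
    unfold OT
    rw [mkO_eq (RT_local hG Y), if_neg (by simp)]
    rfl
  | false :: x =>
    unfold OT
    rw [mkO_eq (RT_local hG Y), if_pos (by simp)]
    rfl
  | true :: x => rfl

theorem OT_false (hG : ∀ e, G e → e.Good) (Y R : Lang) (x : List Bool) :
    OT G g Y R (false :: x) = R x := by
  rw [OT_eq hG]
  rfl

theorem OT_nil (hG : ∀ e, G e → e.Good) (Y R : Lang) : OT G g Y R [] = false := by
  rw [OT_eq hG]
  rfl

theorem OT_tally (hG : ∀ e, G e → e.Good) (Y R : Lang) (m : ℕ) :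
    OT G g Y R (true :: List.replicate m false) = true ↔
      Mark G g (OT G g Y R) (List.replicate m false) := by
  rw [OT_true hG]
  simp [RT]

theorem OT_Y (hG : ∀ e, G e → e.Good) (Y R : Lang) {x : List Bool}
    (hx : x ≠ List.replicate x.length false) : OT G g Y R (true :: x) = Y x := by
  rw [OT_true hG]
  simp [RT, hx]

theorem mark_iff {O : Lang} {l u b : ℕ} (hu : 2 * u + 1 < 2 ^ l) (hb : b ≤ 1) :
    Mark G g O (List.replicate (2 ^ (2 ^ l + 2 * u + b)) false) ↔
      ((b = 0 ∧ Act G g u l) ∨ (b = 1 ∧ Dead G g O u l)) := by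
  constructor
  · rintro ⟨l', u', b', h1, h2, h3⟩
    have h4 := congrArg List.length h1
    rw [List.length_replicate, List.length_replicate] at h4
    have h5 := Nat.pow_right_injective (le_refl 2) h4
    have hb' : b' ≤ 1 := by rcases h3 with h | h <;> omega
    obtain ⟨h6, h7, h8⟩ := exp_inj h5 hu h2 hb hb'
    subst h6; subst h7; subst h8
    exact h3
  · intro h
    exact ⟨l, u, b, rfl, hu, h⟩

/-- the family is alive if and only if there is no mark -/
theorem dead_iff {O : Lang} {e : Fam} (he : G e) {l : ℕ} (hg : g (cod e) ≤ l) :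
    (∃ l', l' ≤ l ∧ Dead G g O (cod e) l') ↔ ¬ Alive O e l := by
  classical
  constructor
  · rintro ⟨l', h1, e', h2, -, -, h3, -⟩ h4
    have := cod_inj h2
    subst this
    exact h3 (alive_anti h1 h4)
  · intro h
    have hex : ∃ l', g (cod e) ≤ l' ∧ ¬ Alive O e l' := ⟨l, hg, h⟩
    refine ⟨Nat.find hex, Nat.find_min' hex ⟨hg, h⟩, e, rfl, he, (Nat.find_spec hex).1,
      (Nat.find_spec hex).2, fun l' h1 h2 => ?_⟩
    by_contra h3
    exact Nat.find_min hex h2 ⟨h1, h3⟩

theorem dead_unique {O : Lang} {u l l' : ℕ} (h : Dead G g O u l) (h' : Dead G g O u l') :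
    l = l' := by
  obtain ⟨e, h1, -, h2, h3, h4⟩ := h
  obtain ⟨e', h1', -, h2', h3', h4'⟩ := h'
  have : e = e' := cod_inj (h1.trans h1'.symm)
  subst this
  rcases lt_trichotomy l l' with h5 | h5 | h5
  · exact absurd (h4' l h2 h5) h3
  · exact h5
  · exact absurd (h4 l' h2' h5) h3'

/-- there are few marks -/
theorem few_marks {α : ℕ → ℕ} (O : Lang)
    (hg : ∀ u n, 2 ^ 2 ^ g u ≤ n → 2 * u + 2 ≤ α n) (n : ℕ) :
    {x : List Bool | x.length ≤ n ∧ Mark G g O x}.ncard ≤ α n := by
  classical
  choose! l u b h1 h2 h3 using fun x (hx : Mark G g O x) => hx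
  have hgl : ∀ x, Mark G g O x → g (u x) ≤ l x := by
    intro x hx
    rcases h3 x hx with ⟨-, e, -, -, h⟩ | ⟨-, e, -, -, h, -⟩
    · exact h.ge
    · exact h
  have hb : ∀ x, Mark G g O x → b x ≤ 1 := by
    intro x hx
    rcases h3 x hx with h | h <;> omega
  have k1 : ∀ x ∈ {x : List Bool | x.length ≤ n ∧ Mark G g O x},
      2 * u x + b x ∈ ((Finset.range (α n) : Finset ℕ) : Set ℕ) := by
    rintro x ⟨hx, hW⟩
    rw [Finset.mem_coe, Finset.mem_range]
    have h4 : 2 ^ 2 ^ g (u x) ≤ x.length := by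
      have h5 : x.length = 2 ^ (2 ^ l x + 2 * u x + b x) := by
        have := congrArg List.length (h1 x hW)
        rwa [List.length_replicate] at this
      rw [h5]
      refine Nat.pow_le_pow_right (by norm_num) ?_
      have := Nat.pow_le_pow_right (n := 2) (by norm_num) (hgl x hW)
      omega
    have h5 := hg (u x) n (h4.trans hx)
    have h6 := hb x hW
    omega
  have k2 : Set.InjOn (fun x => 2 * u x + b x)
      {x : List Bool | x.length ≤ n ∧ Mark G g O x} := by
    rintro x ⟨-, hx⟩ x' ⟨-, hx'⟩ h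
    have h' : 2 * u x + b x = 2 * u x' + b x' := h
    have h4 := hb x hx
    have h5 := hb x' hx'
    have h6 : u x = u x' := by omega
    have h7 : b x = b x' := by omega
    have h8 : l x = l x' := by
      rcases h3 x hx with ⟨a1, e, -, -, a2⟩ | ⟨a1, a2⟩
      · rcases h3 x' hx' with ⟨-, e', -, -, a3⟩ | ⟨a3, -⟩
        · rw [a2, a3, h6]
        · omega
      · rcases h3 x' hx' with ⟨a3, -⟩ | ⟨-, a3⟩
        · omega
        · rw [h6] at a2
          exact dead_unique a2 a3
    rw [h1 x hx, h1 x' hx', h6, h7, h8]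
  have k3 := Set.ncard_le_ncard_of_injOn _ k1 k2 (Finset.finite_toSet _)
  rwa [Set.ncard_coe_finset, Finset.card_range] at k3

/-! ## The test -/

theorem hasM_iff (hG : ∀ e, G e → e.Good) {Y R : Lang} {x : List Bool} (hx : 2 ≤ x.length)
    {l u b : ℕ} (hl : l ≤ ix x.length) (hu : 2 * u + 1 < 2 ^ l) (hb : b ≤ 1) :
    hasM (OT G g Y R) x (List.replicate l ()) (List.replicate u ()) b = true ↔
      ((b = 0 ∧ Act G g u l) ∨ (b = 1 ∧ Dead G g (OT G g Y R) u l)) := by
  have hW : ∀ i : ℕ, OT G g Y R (true :: (List.replicate i ()).map (fun _ => false)) = true ↔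
      Mark G g (OT G g Y R) (List.replicate i false) := by
    intro i
    rw [List.map_replicate]
    exact OT_tally hG Y R i
  have e1 : ushl (List.replicate l ()) 1 + ushl [()] u + b = 2 ^ l + 2 * u + b := by
    rw [ushl_eq, ushl_eq, List.length_replicate, List.length_singleton]
    ring
  unfold hasM
  rw [any_range, ← mark_iff (G := G) (g := g) (O := OT G g Y R) hu hb]
  simp only [Bool.and_eq_true, hW, decide_eq_true_eq, List.length_replicate, bits_tail_log, e1]
  constructor
  · rintro ⟨m, -, h1, h2⟩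
    obtain ⟨l', u', b', h3, h4, h5⟩ := h1
    have h6 := congrArg List.length h3
    rw [List.length_replicate, List.length_replicate] at h6
    rw [h6, Nat.log_pow (by norm_num)] at h2
    rw [← h2]
    exact ⟨l', u', b', rfl, h4, h5⟩
  · intro h
    refine ⟨2 ^ (2 ^ l + 2 * u + b), ?_, h, Nat.log_pow (by norm_num) _⟩
    have h1 : (umul (ulen x) (ulen x)).length = x.length * x.length := by
      rw [ulen_eq, umul_replicate, List.length_replicate]
    rw [List.length_cons, h1]
    have h2 : 2 ^ 2 ^ l ≤ x.length :=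
      (Nat.pow_le_pow_right (by norm_num) (Nat.pow_le_pow_right (by norm_num) hl)).trans
        (lev_le hx)
    have h3 : 2 ^ (2 ^ l + 2 * u + b) ≤ 2 ^ 2 ^ l * 2 ^ 2 ^ l := by
      rw [← pow_add]
      exact Nat.pow_le_pow_right (by norm_num) (by omega)
    have h4 := Nat.mul_le_mul h2 h2
    omega

theorem test_iff (hG : ∀ e, G e → e.Good) {Y R : Lang} (hg : ∀ u, 2 * u + 1 < 2 ^ g u)
    (x : List Bool) :
    test (OT G g Y R) x = true ↔ ∃ e : Fam, G e ∧ g (cod e) ≤ ix x.length ∧
      Alive (OT G g Y R) e (ix x.length) ∧ ∃ m n, x = false :: (pad m (e.at n)).enc ∧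
        e.dep n ≤ 2 ^ ix x.length := by
  have hle : ∀ l u : ℕ, decide (ushl [()] (List.replicate u ()).length + 2 ≤
      ushl (List.replicate l ()) 1) = true ↔ 2 * u + 1 < 2 ^ l := by
    intro l u
    rw [decide_eq_true_eq, ushl_eq, ushl_eq, List.length_replicate, List.length_replicate,
      List.length_singleton]
    omega
  have hixl : (() :: ixL x).length = ix x.length + 1 := by rw [List.length_cons, ixL_len]
  unfold test
  rw [any_range, hixl]
  constructor
  · rintro ⟨l, hl, h⟩
    rw [any_range] at h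
    obtain ⟨u, hu, h⟩ := h
    rw [Bool.and_eq_true, Bool.and_eq_true, Bool.and_eq_true, hle, Bool.not_eq_true'] at h
    obtain ⟨⟨h1, h2, h3⟩, h4⟩ := h
    have hx2 : 2 ≤ x.length := by
      by_contra hcon
      have h5 : look4 x (entU (List.replicate u ())) = true := h4
      unfold look4 at h5
      rw [any_range, ulen_eq, List.length_replicate] at h5
      obtain ⟨i, hi, h6⟩ := h5
      unfold look5 at h6
      rw [Bool.and_eq_true, decide_eq_true_eq, ushl_eq, ixL_len] at h6
      have h7 := h6.1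
      have h8 : ix x.length = 0 := by
        unfold ix
        interval_cases x.length <;> simp
      rw [h8] at h7
      rw [h8] at hl
      interval_cases l
      omega
    rw [hasM_iff hG hx2 (by omega) h1 (by norm_num)] at h2
    have h5 : Act G g u l := by
      rcases h2 with h | h
      · exact h.2
      · omega
    obtain ⟨e, he1, he2, he3⟩ := h5
    subst he1
    have h6 : entU (List.replicate (cod e) ()) =
        (fmT e.2.2, List.replicate e.1 (), List.replicate e.2.1 (), 0, 0) :=
      entU_cod (List.length_replicate)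
    rw [h6, look4_iff] at h4
    refine ⟨e, he2, by omega, ?_, h4⟩
    by_contra hcon
    obtain ⟨l', h7, h8⟩ := (dead_iff (g := g) he2 (by omega)).2 hcon
    have h9 : ((rangeU (() :: ixL x)).any (fun l' =>
        decide (ushl [()] (List.replicate (cod e) ()).length + 2 ≤ ushl l' 1) &&
          hasM (OT G g Y R) x l' (List.replicate (cod e) ()) 1)) = true := by
      rw [any_range, hixl]
      have h10 : 2 * cod e + 1 < 2 ^ l' := by
        obtain ⟨-, -, -, h11, -⟩ := h8
        exact (hg (cod e)).trans_le (Nat.pow_le_pow_right (by norm_num) h11)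
      refine ⟨l', by omega, ?_⟩
      rw [Bool.and_eq_true, hle, hasM_iff hG hx2 h7 h10 (by norm_num)]
      exact ⟨h10, Or.inr ⟨rfl, h8⟩⟩
    rw [h9] at h3
    exact Bool.false_ne_true h3.symm
  · rintro ⟨e, he, h1, h2, h3⟩
    have hx2 : 2 ≤ x.length := by
      obtain ⟨m, n, h4, -⟩ := h3
      exact code_len h4
    refine ⟨g (cod e), by omega, ?_⟩
    rw [any_range, ulen_eq, List.length_replicate]
    have h4 : cod e < x.length := by
      have h5 := hg (cod e)
      have h6 : 2 ^ g (cod e) ≤ 2 ^ ix x.length := Nat.pow_le_pow_right (by norm_num) h1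
      have h7 : 2 ^ ix x.length < 2 ^ 2 ^ ix x.length := Nat.lt_two_pow_self
      have h8 := lev_le hx2
      omega
    refine ⟨cod e, h4, ?_⟩
    rw [Bool.and_eq_true, Bool.and_eq_true, Bool.and_eq_true, hle, Bool.not_eq_true',
      hasM_iff hG hx2 h1 (hg _) (by norm_num), entU_cod (List.length_replicate), look4_iff]
    refine ⟨⟨hg _, Or.inl ⟨rfl, e, rfl, he, rfl⟩, ?_⟩, h3⟩
    by_contra hcon
    rw [Bool.not_eq_false, any_range, hixl] at hcon
    obtain ⟨l', h5, h6⟩ := hcon
    rw [Bool.and_eq_true, hle] at h6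
    rw [hasM_iff hG hx2 (by omega) h6.1 (by norm_num)] at h6
    rcases h6.2 with h7 | h7
    · omega
    · exact (dead_iff (g := g) he h1).1 ⟨l', by omega, h7.2⟩ h2

theorem test_ok (hG : ∀ e, G e → e.Good) {Y R : Lang} (hg : ∀ u, 2 * u + 1 < 2 ^ g u) (σ : Fm)
    (h : test (OT G g Y R) (false :: σ.enc) = true) : σ.Closed ∧ σ.True (OT G g Y R) := by
  obtain ⟨e, he, h1, h2, m, n, h3, h4⟩ := (test_iff hG hg _).1 h
  have h7 : σ = pad m (e.at n) := by
    refine (enc_inj (a := []) (b := []) ?_).1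
    rw [List.append_nil, List.append_nil]
    exact (List.cons.inj h3).2
  subst h7
  refine ⟨(pad_closed m _).2 ?_, (pad_true _ m _).2 (h2 n h4)⟩
  intro i hi
  obtain ⟨h8, h9⟩ := fm_free_sb (num_has i n) _ hi
  exact h9 ((hG e he).1 i h8)

/-- the theory -/
theorem exists_S (hG : ∀ e, G e → e.Good) {Y R : Lang} (hg : ∀ u, 2 * u + 1 < 2 ^ g u)
    {B : Fm → Prop} (hB : Base (OT G g Y R) B) : ∃ S, InT (OT G g Y R) B S ∧
      ∀ σ : Fm, test (OT G g Y R) (false :: σ.enc) = true → Ax (OT G g Y R) S σ := by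
  obtain ⟨b, hbh, hb⟩ := hB.dec
  have hP : PTime (OT G g Y R) (fun x : List Bool =>
      accU (OT G g Y R) (cmdD b.1) x [] (List.replicate ((x.length + 2) ^ b.2) ()) ||
        test (OT G g Y R) (false :: x)) := by
    have f0 : PTime (OT G g Y R) (fun x : List Bool => x) := PTime.id
    have hN : PTime (OT G g Y R)
        (fun x : List Bool => List.replicate ((x.length + 2) ^ b.2) ()) :=
      UPoly.comp (g := fun n => (n + 2) ^ b.2) (UPoly.tb b.2) f0
    exact (PTime.accU (PTime.const _) f0 (PTime.const []) hN).or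
      (PTime_test (PTime.cons (PTime.const false) f0))
  obtain ⟨c, k, hS⟩ := inP_of hP
  have hAx : ∀ σ, Ax (OT G g Y R) (c, k) σ ↔ B σ ∨ test (OT G g Y R) (false :: σ.enc) = true := by
    intro σ
    unfold Ax
    rw [(hS σ.enc).2, Bool.or_eq_true, accU_iff, List.length_replicate]
    exact or_congr (hb σ) Iff.rfl
  refine ⟨(c, k), ⟨fun x => (hS x).1, fun σ hσ => (hAx σ).mpr (Or.inl hσ), fun σ hσ => ?_, ?_⟩,
    fun σ h => (hAx σ).2 (Or.inr h)⟩
  · rcases (hAx σ).mp hσ with h | h
    · exact hB.closed σ h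
    · exact (test_ok hG hg σ h).1
  · intro hp
    have h1 : falsum.True (OT G g Y R) := by
      refine sound (fun σ hσ => ?_) hp
      rcases (hAx σ).mp hσ with h | h
      · exact hB.isTrue σ h
      · exact (test_ok hG hg σ h).2
    exact h1 (fun _ => 0) rfl

theorem easy_test (hG : ∀ e, G e → e.Good) {Y R : Lang} (hg : ∀ u, 2 * u + 1 < 2 ^ g u) {S : Th}
    (hS : ∀ σ : Fm, test (OT G g Y R) (false :: σ.enc) = true → Ax (OT G g Y R) S σ) (e : Fam)
    (he : G e) (ht : ∀ n, (e.at n).True (OT G g Y R)) : EasyProofs (OT G g Y R) S e.at := by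
  refine easy_of e (g (cod e)) (fun n => hS _ ?_)
  have hx : padE e.2.1 (g (cod e)) n ≤
      (false :: (pad (padE e.2.1 (g (cod e)) n) (e.at n)).enc).length := by
    rw [List.length_cons, pad_len]; omega
  refine (test_iff hG hg _).2 ⟨e, he, ix_lev (le_trans ?_ hx), fun k _ => ht k,
    padE e.2.1 (g (cod e)) n, n, rfl, ix_dep ((padE_dep _ _ _).trans hx)⟩
  unfold padE
  exact Nat.le_add_left _ _

end

end Pool.Agent.TC
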